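import Pool.Agent.N393.AHL.Parts
import Pool.Agent.TH676.Z.Main

set_option autoImplicit false
set_option linter.unusedSectionVars false

/-!
# Deletion sets: closure under contractions and flows
-/

namespace Pool.Agent.N393.AHL

open Finset Pool.Agent.TH676.Z Pool.Agent.Y335.FL Pool.Agent.Y358.IN

section
variable {V : Type} [Fintype V] [DecidableEq V] {G : SimpleGraph V} [DecidableRel G.Adj]

/-- Small sets which dominate all vertices outside a sparse part. -/
theorem sparse (h12 : ∀ (w : V) (c : G.Walk w w), c.IsCycle → 12 ≤ c.length)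
    (h3 : ∀ x y, G.Adj x y → 3 ≤ G.degree x) (hne : ∃ x y, G.Adj x y) {S Z : Finset V}
    (hS : S ⊆ supp G) (hZ : Z ⊆ supp G \ S) (hcl : ∀ x ∈ Z, ∀ y, G.Adj x y → y ∈ Z ∨ y ∈ S)
    (hsp : ∑ x ∈ Z, (G.neighborFinset x ∩ Z).card ≤ 2 * Z.card)
    (hdom : ∀ x ∈ supp G \ S, x ∉ Z → ∃ y ∈ S, G.Adj x y) : 32 ≤ S.card := by
  classical
  refine dom h12 h3 hne hS ?_
  have h1 : (supp G \ S).card = ((supp G \ S) \ Z).card + Z.card :=
    (card_sdiff_add_card_eq_card hZ).symm
  have h2 : ∑ x ∈ supp G \ S, (G.neighborFinset x ∩ S).card =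
      ∑ x ∈ (supp G \ S) \ Z, (G.neighborFinset x ∩ S).card +
        ∑ x ∈ Z, (G.neighborFinset x ∩ S).card := (sum_sdiff hZ).symm
  have h3a : ((supp G \ S) \ Z).card ≤ ∑ x ∈ (supp G \ S) \ Z, (G.neighborFinset x ∩ S).card := by
    rw [card_eq_sum_ones]
    refine sum_le_sum fun x hx => ?_
    obtain ⟨y, hy, hxy⟩ := hdom x (mem_sdiff.1 hx).1 (mem_sdiff.1 hx).2
    exact card_pos.2 ⟨y, mem_inter.2 ⟨(G.mem_neighborFinset x y).2 hxy, hy⟩⟩
  have h4 : 3 * Z.card ≤ ∑ x ∈ Z, (G.neighborFinset x ∩ S).card +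
      ∑ x ∈ Z, (G.neighborFinset x ∩ Z).card := by
    rw [mul_comm, ← smul_eq_mul, ← sum_const, ← sum_add_distrib]
    refine sum_le_sum fun x hx => ?_
    obtain ⟨z, hz⟩ := mem_supp.1 (mem_sdiff.1 (hZ hx)).1
    refine (h3 x z hz).trans ?_
    rw [← G.card_neighborFinset_eq_degree]
    refine le_trans (card_le_card ?_) (card_union_le _ _)
    intro y hy
    rw [mem_union, mem_inter, mem_inter]
    rcases hcl x hx y ((G.mem_neighborFinset x y).1 hy) with h | h
    · exact Or.inr ⟨hy, h⟩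
    · exact Or.inl ⟨hy, h⟩
  omega

end

section
variable {V E : Type} [Fintype V] [DecidableEq V] [Fintype E] [DecidableEq E]

/-- the edges inside `Y`, without loops -/
def ins (src dst : E → V) (Y : Finset V) : Finset E :=
  univ.filter (fun e => src e ∈ Y ∧ dst e ∈ Y ∧ src e ≠ dst e)

theorem mem_ins {src dst : E → V} {Y : Finset V} {e : E} :
    e ∈ ins src dst Y ↔ src e ∈ Y ∧ dst e ∈ Y ∧ src e ≠ dst e := by
  unfold ins
  rw [mem_filter]
  exact ⟨fun h => h.2, fun h => ⟨mem_univ _, h⟩⟩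

theorem ctr_cases {u v a x : V} (h : ctr u v a = x) : a = x ∨ (a = v ∧ x = u) := by
  unfold ctr at h
  split_ifs at h with h1
  · exact Or.inr ⟨h1, h.symm⟩
  · exact Or.inl h

theorem ctr_ne_v {u v a : V} (h : u ≠ v) : ctr u v a ≠ v := by
  unfold ctr
  split_ifs with h1
  · exact h
  · exact h1

/-- a vertex of large degree in the contraction comes from one of large degree -/
theorem lift3 {src dst : E → V} {e : E} (hne : src e ≠ dst e) {x : V}
    (h : 3 ≤ dg (ctr (src e) (dst e) ∘ src) (ctr (src e) (dst e) ∘ dst) x) :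
    ∃ x0, ctr (src e) (dst e) x0 = x ∧ 3 ≤ dg src dst x0 := by
  have hxv : x ≠ dst e := by
    rintro rfl
    rw [Ord.dg_ctr_v src dst hne] at h
    omega
  by_cases hxu : x = src e
  · subst hxu
    have h2 := Ord.dg_ctr_u src dst e hne
    by_cases h4 : 3 ≤ dg src dst (src e)
    · exact ⟨src e, ctr_u _ _ hne, h4⟩
    · exact ⟨dst e, ctr_v _ _, by omega⟩
  · exact ⟨x, ctr_of_ne hxv, h.trans (Ord.dg_ctr_other src dst hxu)⟩

theorem lift_adj {src dst : E → V} {u v x y : V}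
    (h : Adj (ctr u v ∘ src) (ctr u v ∘ dst) x y) :
    ∃ x1 y1, ctr u v x1 = x ∧ ctr u v y1 = y ∧ Adj src dst x1 y1 := by
  obtain ⟨hne, e, he⟩ := h
  rcases he with ⟨a, b⟩ | ⟨a, b⟩
  · exact ⟨src e, dst e, a, b, fun h' => hne (by rw [← a, ← b, Function.comp, Function.comp, h']),
      e, Or.inl ⟨rfl, rfl⟩⟩
  · exact ⟨dst e, src e, b, a, fun h' => hne (by rw [← a, ← b, Function.comp, Function.comp, h']),
      e, Or.inr ⟨rfl, rfl⟩⟩

/-- the class of the graphs with a set `S` and parts with at most `p` vertices of degree at least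
three outside `S` -/
def ClP (p : ℕ) (src dst : E → V) : Prop := ∃ (S : Finset V) (κ : V → V),
  (2 * p + 1) * S.card < 63 * (p + 2) ∧
  (∀ x y, Adj src dst x y → x ∉ S → y ∉ S → κ x = κ y) ∧
  ∀ l, (univ.filter (fun x => x ∉ S ∧ 3 ≤ dg src dst x ∧ κ x = l)).card ≤ p

theorem ccP (p : ℕ) : CC (V := V) (E := E) (ClP p) := by
  classical
  intro src dst e h hne
  obtain ⟨S, κ, hS, hκ, hp⟩ := h
  set u := src e with hu
  set v := dst e with hv
  have huv : Adj src dst u v := ⟨hne, e, Or.inl ⟨rfl, rfl⟩⟩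
  have hnS : ∀ {a x : V}, ctr u v a = x → x ∉ S.image (ctr u v) → a ∉ S := by
    intro a x ha hx haS
    exact hx (mem_image.2 ⟨a, haS, ha⟩)
  have hκl : ∀ {a x : V}, ctr u v a = x → x ∉ S.image (ctr u v) → κ a = κ x := by
    intro a x ha hx
    rcases ctr_cases ha with h | ⟨h1, h2⟩
    · rw [h]
    · rw [h1, h2]
      rw [h2] at hx
      exact (hκ u v huv (hnS (ctr_u _ _ hne) hx) (hnS (ctr_v _ _) hx)).symm
  refine ⟨S.image (ctr u v), κ, ?_, ?_, ?_⟩
  · refine lt_of_le_of_lt (Nat.mul_le_mul_left _ card_image_le) hS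
  · intro x y hxy hx hy
    obtain ⟨x1, y1, h1, h2, h3⟩ := lift_adj hxy
    rw [← hκl h1 hx, ← hκl h2 hy]
    exact hκ x1 y1 h3 (hnS h1 hx) (hnS h2 hy)
  · intro l
    refine le_trans ?_ (hp l)
    have hch : ∀ x : V, ∃ x0, x ∉ S.image (ctr u v) ∧
        3 ≤ dg (ctr u v ∘ src) (ctr u v ∘ dst) x ∧ κ x = l →
        ctr u v x0 = x ∧ 3 ≤ dg src dst x0 := by
      intro x
      by_cases hx : x ∉ S.image (ctr u v) ∧
        3 ≤ dg (ctr u v ∘ src) (ctr u v ∘ dst) x ∧ κ x = l
      · obtain ⟨x0, h1, h2⟩ := lift3 hne hx.2.1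
        exact ⟨x0, fun _ => ⟨h1, h2⟩⟩
      · exact ⟨x, fun h => absurd h hx⟩
    choose f hf using hch
    refine card_le_card_of_injOn f ?_ ?_
    · intro x hx
      have hx' := (mem_filter.1 (mem_coe.1 hx)).2
      obtain ⟨h1, h2⟩ := hf x hx'
      refine mem_coe.2 (mem_filter.2 ⟨mem_univ _, hnS h1 hx'.1, h2, ?_⟩)
      rw [hκl h1 hx'.1]
      exact hx'.2.2
    · intro x hx y hy hxy
      have hx' := (mem_filter.1 (mem_coe.1 hx)).2
      have hy' := (mem_filter.1 (mem_coe.1 hy)).2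
      rw [← (hf x hx').1, ← (hf y hy').1, hxy]

/-- the class of the graphs with a set of at most `31` vertices which dominates all vertices of
degree at least three outside a sparse part -/
def ClZ (src dst : E → V) : Prop := ∃ S Z : Finset V, S.card ≤ 31 ∧ Disjoint S Z ∧
  (∀ x ∈ Z, ∀ y, Adj src dst x y → y ∈ Z ∨ y ∈ S) ∧
  (∀ Y ⊆ Z, (ins src dst Y).card ≤ Y.card) ∧
  ∀ x, x ∉ S → x ∉ Z → 3 ≤ dg src dst x → ∃ y ∈ S, Adj src dst x y

theorem ccZ : CC (V := V) (E := E) ClZ := by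
  classical
  intro src dst e h hne
  obtain ⟨S, Z, hS, hSZ, hcl, hsp, hdom⟩ := h
  set u := src e with hu
  set v := dst e with hv
  have huv : Adj src dst u v := ⟨hne, e, Or.inl ⟨rfl, rfl⟩⟩
  set S' := S.image (ctr u v) with hS'
  set Z' := Z.image (ctr u v) \ S' with hZ'
  have hnS : ∀ {a x : V}, ctr u v a = x → x ∉ S' → a ∉ S := by
    intro a x ha hx haS
    exact hx (mem_image.2 ⟨a, haS, ha⟩)
  have hlZ : ∀ {a x : V}, ctr u v a = x → x ∈ Z' → a ∈ Z := by
    intro a x ha hx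
    obtain ⟨hx1, hx2⟩ := mem_sdiff.1 hx
    obtain ⟨b, hb, hbx⟩ := mem_image.1 hx1
    rcases ctr_cases ha with h | ⟨h1, h2⟩
    · rcases ctr_cases hbx with h' | ⟨h1', h2'⟩
      · rw [h, ← h']; exact hb
      · rw [h, h2']
        rw [h1'] at hb
        rcases hcl v hb u (GiAux.adj_symm huv) with h3 | h3
        · exact h3
        · exact absurd h3 (hnS (ctr_u _ _ hne) (by rw [← h2']; exact hx2))
    · rw [h1]
      rcases ctr_cases hbx with h' | ⟨h1', h2'⟩
      · rw [h', h2] at hb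
        rcases hcl u hb v huv with h3 | h3
        · exact h3
        · exact absurd h3 (hnS (ctr_v _ _) (by rw [← h2]; exact hx2))
      · rw [← h1']; exact hb
  have himZ : ∀ {a : V}, a ∈ Z → ctr u v a ∉ S' → ctr u v a ∈ Z' := by
    intro a ha h
    exact mem_sdiff.2 ⟨mem_image_of_mem _ ha, h⟩
  refine ⟨S', Z', card_image_le.trans hS, ?_, ?_, ?_, ?_⟩
  · rw [disjoint_left]
    intro x hx hx'
    exact (mem_sdiff.1 hx').2 hx
  · intro x hx y hxy
    obtain ⟨x1, y1, h1, h2, h3⟩ := lift_adj hxy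
    by_cases hyS : y ∈ S'
    · exact Or.inr hyS
    · left
      rcases hcl x1 (hlZ h1 hx) y1 h3 with h4 | h4
      · rw [← h2]
        exact himZ h4 (by rw [h2]; exact hyS)
      · exact absurd (by rw [← h2]; exact mem_image_of_mem _ h4) hyS
  · intro Y hY
    set Y0 : Finset V := univ.filter (fun x => ctr u v x ∈ Y) with hY0
    have hY0Z : Y0 ⊆ Z := fun x hx => hlZ rfl (hY (mem_filter.1 hx).2)
    have h1 : ins (ctr u v ∘ src) (ctr u v ∘ dst) Y ⊆ ins src dst Y0 := by
      intro d hd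
      obtain ⟨h1, h2, h3⟩ := mem_ins.1 hd
      exact mem_ins.2 ⟨mem_filter.2 ⟨mem_univ _, h1⟩, mem_filter.2 ⟨mem_univ _, h2⟩,
        fun h => h3 (by rw [Function.comp, Function.comp, h])⟩
    have h2 := hsp Y0 hY0Z
    by_cases huY : u ∈ Y
    · have h3 : Y0 ⊆ insert v Y := by
        intro x hx
        have hx' := (mem_filter.1 hx).2
        rcases ctr_cases (rfl : ctr u v x = ctr u v x) with h | ⟨h, _⟩
        · rw [← h] at hx'
          exact mem_insert_of_mem hx'
        · rw [h]; exact mem_insert_self _ _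
      have h4 : e ∈ ins src dst Y0 := mem_ins.2 ⟨mem_filter.2 ⟨mem_univ _, by
        change ctr u v u ∈ Y
        rw [ctr_u _ _ hne]; exact huY⟩, mem_filter.2 ⟨mem_univ _, by
        change ctr u v v ∈ Y
        rw [ctr_v]; exact huY⟩, hne⟩
      have h5 : e ∉ ins (ctr u v ∘ src) (ctr u v ∘ dst) Y := by
        intro h
        apply (mem_ins.1 h).2.2
        change ctr u v u = ctr u v v
        rw [ctr_u _ _ hne, ctr_v]
      have h6 : (ins (ctr u v ∘ src) (ctr u v ∘ dst) Y).card + 1 ≤ (ins src dst Y0).card := by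
        rw [← card_insert_of_notMem h5]
        exact card_le_card (insert_subset h4 h1)
      have h7 := (card_le_card h3).trans (card_insert_le _ _)
      omega
    · have h3 : Y0 ⊆ Y := by
        intro x hx
        have hx' := (mem_filter.1 hx).2
        rcases ctr_cases (rfl : ctr u v x = ctr u v x) with h | ⟨_, h⟩
        · rw [← h] at hx'
          exact hx'
        · rw [h] at hx'
          exact absurd hx' huY
      exact (card_le_card h1).trans (h2.trans (card_le_card h3))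
  · intro x hxS hxZ hdx
    obtain ⟨x0, h1, h2⟩ := lift3 hne hdx
    have h3 : x0 ∉ S := hnS h1 hxS
    have h4 : x0 ∉ Z := by
      intro h
      apply hxZ
      rw [← h1]
      exact himZ h (by rw [h1]; exact hxS)
    obtain ⟨y, hy, hxy⟩ := hdom x0 h3 h4 h2
    refine ⟨ctr u v y, mem_image_of_mem _ hy, ?_⟩
    rw [← h1]
    refine adj_ctr hxy ?_
    intro h5
    apply hxS
    rw [← h1, h5]
    exact mem_image_of_mem _ hy

/-- the graph of a critical multigraph -/
theorem frame (hc : St_contract) {s d : E → V} (hM : MinC s d) :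
    ∃ (G : SimpleGraph V), (∀ a b, G.Adj a b ↔ Adj s d a b) ∧
      (∀ (w : V) (c : G.Walk w w), c.IsCycle → 12 ≤ c.length) ∧
      (∀ x y, G.Adj x y → ∃ a b c, G.Adj x a ∧ G.Adj x b ∧ G.Adj x c ∧ a ≠ b ∧ a ≠ c ∧ b ≠ c) ∧
      (∃ x y, G.Adj x y) ∧ ∀ x y, G.Adj x y → 3 ≤ dg s d x := by
  have h3 := threeC hc hM
  have hgi := girthC hc hM
  have hl : ∃ e, s e ≠ d e := by
    by_contra h
    push Not at h
    exact hM.nf (flow_of_loops h)
  obtain ⟨e, he⟩ := hl
  let G : SimpleGraph V :=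
    { Adj := Adj s d
      symm := ⟨fun a b h => GiAux.adj_symm h⟩
      loopless := ⟨fun a h => h.1 rfl⟩ }
  have hG : ∀ a b, G.Adj a b ↔ Adj s d a b := fun a b => Iff.rfl
  exact ⟨G, hG, fun w c hc => Ord.cycle_len hgi G hG c hc, fun x y h => h3 x y h,
    ⟨s e, d e, he, e, Or.inl ⟨rfl, rfl⟩⟩, fun x y h => Ord.three_dg h3 h⟩

theorem deg3_of {G : SimpleGraph V} [DecidableRel G.Adj]
    (h : ∀ x y, G.Adj x y → ∃ a b c, G.Adj x a ∧ G.Adj x b ∧ G.Adj x c ∧ a ≠ b ∧ a ≠ c ∧ b ≠ c) :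
    ∀ x y, G.Adj x y → 3 ≤ G.degree x := by
  intro x y hxy
  obtain ⟨a, b, c, ha, hb, hc, hab, hac, hbc⟩ := h x y hxy
  rw [← G.card_neighborFinset_eq_degree]
  have h1 : ({a, b, c} : Finset V) ⊆ G.neighborFinset x := by
    intro z hz
    rw [SimpleGraph.mem_neighborFinset]
    simp only [mem_insert, mem_singleton] at hz
    rcases hz with rfl | rfl | rfl <;> assumption
  calc 3 = ({a, b, c} : Finset V).card := by
        rw [card_insert_of_notMem (by simp [hab, hac]), card_pair hbc]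
    _ ≤ _ := card_le_card h1

/-- **Small parts.** -/
theorem flow_of_ClP (hc : St_contract) {p : ℕ} (hp : p ≤ 11) (src dst : E → V)
    (hcl : ClP p src dst) (hbr : Br src dst ∅ ∅) : FlowOn src dst ∅ ∅ := by
  classical
  by_contra hn
  obtain ⟨s, d, ⟨S, κ, hS, hκ, hpa⟩, hM⟩ := exists_minC (ccP p) src dst hcl hbr hn
  obtain ⟨G, hG, h12, h3, hne, hdg⟩ := frame hc hM
  have h4 := parts h12 (deg3_of h3) hne hp (S := S ∩ supp G) inter_subset_right κ ?_ ?_
  · have h5 : (S ∩ supp G).card ≤ S.card := card_le_card inter_subset_left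
    have h6 : (2 * p + 1) * (S ∩ supp G).card ≤ (2 * p + 1) * S.card := Nat.mul_le_mul_left _ h5
    omega
  · intro x y hxy hx hy
    refine hκ x y ((hG x y).1 hxy) ?_ ?_
    · exact fun h => hx (mem_inter.2 ⟨h, mem_supp.2 ⟨y, hxy⟩⟩)
    · exact fun h => hy (mem_inter.2 ⟨h, mem_supp.2 ⟨x, hxy.symm⟩⟩)
  · intro l
    refine le_trans (card_le_card ?_) (hpa l)
    intro x hx
    obtain ⟨h5, h6⟩ := mem_filter.1 hx
    obtain ⟨h7, h8⟩ := mem_sdiff.1 h5
    obtain ⟨y, hy⟩ := mem_supp.1 h7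
    exact mem_filter.2 ⟨mem_univ _, fun h => h8 (mem_inter.2 ⟨h, h7⟩), hdg x y hy, h6⟩

theorem ins_sum {s d : E → V} {G : SimpleGraph V} [DecidableRel G.Adj]
    (hG : ∀ a b, G.Adj a b ↔ Adj s d a b) (Z : Finset V) :
    ∑ x ∈ Z, (G.neighborFinset x ∩ Z).card ≤ 2 * (ins s d Z).card := by
  classical
  have h1 : ∀ x ∈ Z, (G.neighborFinset x ∩ Z).card ≤ ∑ z ∈ Z, ∑ e ∈ ins s d Z,
      ((if s e = x then (if d e = z then 1 else 0) else 0) +
        (if s e = z then (if d e = x then 1 else 0) else 0)) := by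
    intro x hx
    have h2 : (G.neighborFinset x ∩ Z).card = ∑ z ∈ Z, if G.Adj x z then 1 else 0 := by
      rw [← card_filter]
      congr 1
      ext z
      rw [mem_inter, SimpleGraph.mem_neighborFinset, mem_filter]
      exact and_comm
    rw [h2]
    refine sum_le_sum fun z hz => ?_
    split_ifs with h
    · obtain ⟨hne, e, he⟩ := (hG x z).1 h
      have hmem : e ∈ ins s d Z := by
        rcases he with ⟨a, b⟩ | ⟨a, b⟩
        · exact mem_ins.2 ⟨by rw [a]; exact hx, by rw [b]; exact hz, by rw [a, b]; exact hne⟩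
        · exact mem_ins.2 ⟨by rw [a]; exact hz, by rw [b]; exact hx, by
            rw [a, b]; exact hne.symm⟩
      refine le_trans ?_ (single_le_sum (f := fun e =>
        ((if s e = x then (if d e = z then 1 else 0) else 0) +
        (if s e = z then (if d e = x then 1 else 0) else 0))) (fun _ _ => Nat.zero_le _) hmem)
      rcases he with ⟨a, b⟩ | ⟨a, b⟩
      · simp only [a, b, if_true]
        omega
      · simp only [a, b, if_true]
        omega
    · exact Nat.zero_le _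
  refine (sum_le_sum h1).trans ?_
  have h2 : ∑ x ∈ Z, ∑ z ∈ Z, ∑ e ∈ ins s d Z,
      ((if s e = x then (if d e = z then 1 else 0) else 0) +
        (if s e = z then (if d e = x then 1 else 0) else 0)) =
      ∑ e ∈ ins s d Z, ∑ x ∈ Z, ∑ z ∈ Z,
      ((if s e = x then (if d e = z then 1 else 0) else 0) +
        (if s e = z then (if d e = x then 1 else 0) else 0)) := by
    exact (sum_congr rfl fun x _ => sum_comm).trans sum_comm
  rw [h2, mul_comm, ← smul_eq_mul, ← sum_const]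
  refine sum_le_sum fun e he => ?_
  obtain ⟨a, b, _⟩ := mem_ins.1 he
  simp only [sum_add_distrib]
  have e1 : ∑ x ∈ Z, ∑ z ∈ Z, (if s e = x then (if d e = z then 1 else 0) else 0) = 1 := by
    rw [sum_eq_single (s e)]
    · rw [sum_eq_single (d e)]
      · simp
      · intro z _ hz
        simp [Ne.symm hz]
      · intro h; exact absurd b h
    · intro x _ hx
      simp [Ne.symm hx]
    · intro h; exact absurd a h
  have e2 : ∑ x ∈ Z, ∑ z ∈ Z, (if s e = z then (if d e = x then 1 else 0) else 0) = 1 := by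
    rw [sum_eq_single (d e)]
    · rw [sum_eq_single (s e)]
      · simp
      · intro z _ hz
        simp [Ne.symm hz]
      · intro h; exact absurd a h
    · intro x _ hx
      simp [Ne.symm hx]
    · intro h; exact absurd b h
  omega

/-- **Dominating sets.** -/
theorem flow_of_ClZ (hc : St_contract) (src dst : E → V)
    (hcl : ClZ src dst) (hbr : Br src dst ∅ ∅) : FlowOn src dst ∅ ∅ := by
  classical
  by_contra hn
  obtain ⟨s, d, ⟨S, Z, hS, hSZ, hcl, hsp, hdom⟩, hM⟩ := exists_minC ccZ src dst hcl hbr hn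
  obtain ⟨G, hG, h12, h3, hne, hdg⟩ := frame hc hM
  have h4 := sparse h12 (deg3_of h3) hne (S := S ∩ supp G) (Z := Z ∩ supp G) inter_subset_right
    ?_ ?_ ?_ ?_
  · have h5 : (S ∩ supp G).card ≤ S.card := card_le_card inter_subset_left
    omega
  · intro x hx
    obtain ⟨h5, h6⟩ := mem_inter.1 hx
    exact mem_sdiff.2 ⟨h6, fun h => disjoint_left.1 hSZ (mem_inter.1 h).1 h5⟩
  · intro x hx y hxy
    have hy : y ∈ supp G := mem_supp.2 ⟨x, hxy.symm⟩
    rcases hcl x (mem_inter.1 hx).1 y ((hG x y).1 hxy) with h | h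
    · exact Or.inl (mem_inter.2 ⟨h, hy⟩)
    · exact Or.inr (mem_inter.2 ⟨h, hy⟩)
  · exact (ins_sum hG _).trans (Nat.mul_le_mul_left _ (hsp _ inter_subset_left))
  · intro x hx hxZ
    obtain ⟨h7, h8⟩ := mem_sdiff.1 hx
    obtain ⟨y, hy⟩ := mem_supp.1 h7
    obtain ⟨z, hz, hxz⟩ := hdom x (fun h => h8 (mem_inter.2 ⟨h, h7⟩))
      (fun h => hxZ (mem_inter.2 ⟨h, h7⟩)) (hdg x y hy)
    have h9 := (hG x z).2 hxz
    exact ⟨z, mem_inter.2 ⟨hz, mem_supp.2 ⟨x, h9.symm⟩⟩, h9⟩

end

end Pool.Agent.N393.AHL
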