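import Pool.Agent.N393.AHL.Tang

set_option autoImplicit false

/-!
# Vertex covers and other small sets in graphs of girth at least twelve
-/

namespace Pool.Agent.N393.AHL

open Finset Pool.Agent.TH676.Z Pool.Agent.Y335.FL

section
variable {V : Type} [Fintype V] [DecidableEq V] {G : SimpleGraph V} [DecidableRel G.Adj]

/-- the vertices which are not isolated -/
def supp (G : SimpleGraph V) [DecidableRel G.Adj] : Finset V :=
  univ.filter (fun v => ∃ y, G.Adj v y)

theorem mem_supp {x : V} : x ∈ supp G ↔ ∃ y, G.Adj x y := by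
  unfold supp
  rw [mem_filter]
  exact ⟨fun h => h.2, fun h => ⟨mem_univ _, h⟩⟩

theorem num_vc {y : ℝ} (hy : 2 ≤ y) :
    62 * (4 / 3 + y ^ 2 / 6) < 2 * ∑ d ∈ range 6, y ^ d := by
  obtain ⟨z, rfl⟩ : ∃ z : ℝ, y = 2 + z := ⟨y - 2, by ring⟩
  have hz : 0 ≤ z := by linarith
  simp only [sum_range_succ, sum_range_zero]
  have h7 : 2 * (0 + (2 + z) ^ 0 + (2 + z) ^ 1 + (2 + z) ^ 2 + (2 + z) ^ 3 + (2 + z) ^ 4 +
      (2 + z) ^ 5) - 62 * (4 / 3 + (2 + z) ^ 2 / 6) > 0 := by
    ring_nf
    positivity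
  linarith

theorem deg_zero {x : V} (h : x ∉ supp G) : G.degree x = 0 := by
  rw [mem_supp] at h
  rw [← G.card_neighborFinset_eq_degree, card_eq_zero, eq_empty_iff_forall_notMem]
  intro y hy
  exact h ⟨y, (G.mem_neighborFinset x y).1 hy⟩

/-- the Moore bound with two classes of vertices -/
theorem moore_two (h12 : ∀ (w : V) (c : G.Walk w w), c.IsCycle → 12 ≤ c.length)
    (h3 : ∀ x y, G.Adj x y → 3 ≤ G.degree x) (hne : ∃ x y, G.Adj x y) {S I : Finset V}
    (hSI : Disjoint S I) (hU : S ∪ I = supp G) {t y : ℝ} (ht : 3 ≤ t) (hy : 0 < y)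
    (hL : Real.log y * (∑ x ∈ S, (G.degree x : ℝ) + ∑ x ∈ I, (G.degree x : ℝ)) ≤
      I.card * (3 * Real.log 2) + (∑ x ∈ I, (G.degree x : ℝ) - 3 * I.card) *
      (Real.log 2 + 3 / 2) + (S.card * (t * Real.log (t - 1)) +
      (∑ x ∈ S, (G.degree x : ℝ) - t * S.card) * (Real.log (t - 1) + t / (t - 1)))) :
    2 * ∑ d ∈ range 6, y ^ d ≤ (S.card : ℝ) + I.card := by
  classical
  have h0 : ∀ x, x ∉ S → x ∉ I → G.degree x = 0 := by
    intro x h1 h2
    apply deg_zero
    rw [← hU, mem_union, not_or]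
    exact ⟨h1, h2⟩
  have h3' : ∀ x ∈ S ∪ I, 3 ≤ G.degree x := by
    intro x hx
    rw [hU, mem_supp] at hx
    obtain ⟨y, hy⟩ := hx
    exact h3 x y hy
  have h4 := two_class hSI h0 h3' ht
  have h5 := moore h12 (fun x y h => (by have := h3 x y h; omega)) hne hy (by
    rw [deg_class hSI h0]
    exact hL.trans h4)
  have h7 : (supp G).card = S.card + I.card := by
    rw [← card_union_of_disjoint hSI, hU]
  refine h5.trans (le_of_eq ?_)
  change ((supp G).card : ℝ) = _
  rw [h7]
  push_cast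
  rfl

/-- at least 126 vertices -/
theorem card_supp (h12 : ∀ (w : V) (c : G.Walk w w), c.IsCycle → 12 ≤ c.length)
    (h3 : ∀ x y, G.Adj x y → 3 ≤ G.degree x) (hne : ∃ x y, G.Adj x y) :
    126 ≤ (supp G).card := by
  classical
  have h1 := moore_two h12 h3 hne (S := ∅) (I := supp G) (disjoint_empty_left _)
    (empty_union _) (t := 3) (y := 2) le_rfl (by norm_num) (by
    have h2 : 3 * ((supp G).card : ℝ) ≤ ∑ x ∈ supp G, (G.degree x : ℝ) := by
      rw [mul_comm, ← nsmul_eq_mul, ← sum_const]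
      refine sum_le_sum fun x hx => ?_
      obtain ⟨z, hz⟩ := mem_supp.1 hx
      exact_mod_cast h3 x z hz
    simp only [sum_empty, card_empty]
    norm_num
    nlinarith)
  simp only [card_empty, sum_range_succ, sum_range_zero] at h1
  norm_num at h1
  exact_mod_cast h1

theorem sum_deg_ge (h3 : ∀ x y, G.Adj x y → 3 ≤ G.degree x) {I : Finset V} (hI : I ⊆ supp G) :
    3 * (I.card : ℝ) ≤ ∑ x ∈ I, (G.degree x : ℝ) := by
  rw [mul_comm, ← nsmul_eq_mul, ← sum_const]
  refine sum_le_sum fun x hx => ?_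
  obtain ⟨z, hz⟩ := mem_supp.1 (hI hx)
  exact_mod_cast h3 x z hz

/-- the number of the edges between two sets, counted from both sides -/
theorem cross (I S : Finset V) : ∑ x ∈ I, (G.neighborFinset x ∩ S).card =
    ∑ x ∈ S, (G.neighborFinset x ∩ I).card := by
  have h1 : ∀ A B : Finset V, ∑ x ∈ A, (G.neighborFinset x ∩ B).card =
      ∑ x ∈ A, ∑ z ∈ B, if G.Adj x z then 1 else 0 := by
    intro A B
    refine sum_congr rfl fun x _ => ?_
    rw [← card_filter]
    congr 1
    ext z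
    rw [mem_inter, SimpleGraph.mem_neighborFinset, mem_filter]
    exact and_comm
  rw [h1, h1, sum_comm]
  refine sum_congr rfl fun x _ => sum_congr rfl fun z _ => ?_
  simp only [G.adj_comm x z]

/-- Vertex covers have at least 63 vertices. -/
theorem vc (h12 : ∀ (w : V) (c : G.Walk w w), c.IsCycle → 12 ≤ c.length)
    (h3 : ∀ x y, G.Adj x y → 3 ≤ G.degree x) (hne : ∃ x y, G.Adj x y) (S₀ : Finset V)
    (hS : ∀ x y, G.Adj x y → x ∈ S₀ ∨ y ∈ S₀) : 63 ≤ S₀.card := by
  classical
  by_contra hcon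
  set S : Finset V := S₀ ∩ supp G with hSdef
  set I : Finset V := supp G \ S₀ with hIdef
  have hs : S.card ≤ 62 := (card_le_card inter_subset_left).trans (by omega)
  have hSI : Disjoint S I := by
    rw [disjoint_left]
    intro x hx hx'
    exact (mem_sdiff.1 hx').2 (mem_inter.1 hx).1
  have hU : S ∪ I = supp G := by
    ext x
    rw [mem_union, hSdef, hIdef, mem_inter, mem_sdiff]
    tauto
  have hn := card_supp h12 h3 hne
  have hcard : S.card + I.card = (supp G).card := by
    rw [← card_union_of_disjoint hSI, hU]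
  have hspos : 0 < S.card := by
    obtain ⟨x, z, hxz⟩ := hne
    rcases hS x z hxz with h | h
    · exact card_pos.2 ⟨x, mem_inter.2 ⟨h, mem_supp.2 ⟨z, hxz⟩⟩⟩
    · exact card_pos.2 ⟨z, mem_inter.2 ⟨h, mem_supp.2 ⟨x, hxz.symm⟩⟩⟩
  have hAB : (∑ x ∈ I, (G.degree x : ℝ)) ≤ ∑ x ∈ S, (G.degree x : ℝ) := by
    have h1 : ∑ x ∈ I, G.degree x = ∑ x ∈ I, (G.neighborFinset x ∩ S).card := by
      refine sum_congr rfl fun x hx => ?_
      rw [← G.card_neighborFinset_eq_degree]
      congr 1
      ext z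
      rw [mem_inter, SimpleGraph.mem_neighborFinset]
      refine ⟨fun h => ⟨h, ?_⟩, fun h => h.1⟩
      rcases hS x z h with h' | h'
      · exact absurd h' (mem_sdiff.1 hx).2
      · exact mem_inter.2 ⟨h', mem_supp.2 ⟨x, h.symm⟩⟩
    have h2 : ∑ x ∈ I, G.degree x ≤ ∑ x ∈ S, G.degree x := by
      rw [h1, cross]
      refine sum_le_sum fun x _ => ?_
      rw [← G.card_neighborFinset_eq_degree]
      exact card_le_card inter_subset_left
    exact_mod_cast h2
  have hA := sum_deg_ge h3 (I := I) (sdiff_subset)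
  set A : ℝ := ∑ x ∈ I, (G.degree x : ℝ) with hAdef
  set B : ℝ := ∑ x ∈ S, (G.degree x : ℝ) with hBdef
  set s : ℝ := (S.card : ℝ) with hsdef
  set N : ℝ := (I.card : ℝ) with hNdef
  have hs0 : 0 < s := by
    rw [hsdef]; exact_mod_cast hspos
  have hs62 : s ≤ 62 := by
    rw [hsdef]; exact_mod_cast hs
  have hNs : s ≤ N := by
    rw [hsdef, hNdef]
    exact_mod_cast (show S.card ≤ I.card by omega)
  set t : ℝ := 3 * N / s with htdef
  have hts : t * s = 3 * N := by
    rw [htdef]; field_simp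
  have ht : 3 ≤ t := by
    rw [htdef, le_div_iff₀ hs0]
    linarith
  set y : ℝ := √(2 * (t - 1)) with hydef
  have hy2 : y ^ 2 = 2 * (t - 1) := Real.sq_sqrt (by linarith)
  have hy : 2 ≤ y := by
    rw [hydef]
    apply Real.le_sqrt_of_sq_le
    linarith
  have hy0 : 0 < y := by linarith
  have hlog : Real.log (t - 1) = 2 * Real.log y - Real.log 2 := by
    have h1 : Real.log (y ^ 2) = Real.log (2 * (t - 1)) := by rw [hy2]
    rw [Real.log_pow, Real.log_mul (by norm_num) (by linarith)] at h1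
    push_cast at h1
    linarith
  have hly : Real.log 2 ≤ Real.log y := Real.log_le_log (by norm_num) hy
  have hc : 0 ≤ t / (t - 1) := div_nonneg (by linarith) (by linarith)
  have key := moore_two h12 h3 hne hSI hU ht hy0 (by
    rw [← hAdef, ← hBdef, ← hsdef, ← hNdef, hlog, hts]
    have e : s * (t * (2 * Real.log y - Real.log 2)) =
        3 * N * (2 * Real.log y - Real.log 2) := by
      rw [← mul_assoc, mul_comm s t, hts]
    rw [e]
    have h1 : 0 ≤ (Real.log y - Real.log 2) * (B - A) :=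
      mul_nonneg (by linarith) (by linarith)
    have h2 : 0 ≤ (t / (t - 1)) * (B - 3 * N) := mul_nonneg hc (by linarith)
    nlinarith)
  rw [← hsdef, ← hNdef] at key
  have hn2 : s + N = s * (4 / 3 + y ^ 2 / 6) := by
    have : N = t * s / 3 := by linarith
    rw [this, hy2]
    ring
  have h6 : s * (4 / 3 + y ^ 2 / 6) ≤ 62 * (4 / 3 + y ^ 2 / 6) :=
    mul_le_mul_of_nonneg_right hs62 (by positivity)
  rw [hn2] at key
  have h7 := num_vc hy
  linarith

end

end Pool.Agent.N393.AHL
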