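import Pool.Agent.N393.AHL.Cov

set_option autoImplicit false

/-!
# The maximum degree of graphs of girth at least twelve
-/

namespace Pool.Agent.N393.AHL

open Finset Pool.Agent.TH676.Z Pool.Agent.Y335.FL

section
variable {V : Type} [Fintype V] [DecidableEq V] {G : SimpleGraph V} [DecidableRel G.Adj]

theorem three_of (h3 : ∀ x y, G.Adj x y → 3 ≤ G.degree x) : ∀ x y, G.Adj x y →
    ∃ a b c, G.Adj x a ∧ G.Adj x b ∧ G.Adj x c ∧ a ≠ b ∧ a ≠ c ∧ b ≠ c := by
  intro x y hxy
  have h1 := h3 x y hxy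
  rw [← G.card_neighborFinset_eq_degree] at h1
  obtain ⟨a, ha, b, hb, c, hc, hab, hac, hbc⟩ := two_lt_card.1 (show 2 < _ from h1)
  rw [SimpleGraph.mem_neighborFinset] at ha hb hc
  exact ⟨a, b, c, ha, hb, hc, hab, hac, hbc⟩

/-- A graph of girth at least twelve with `n` vertices has maximum degree at most
`(n - 33) / 31`. -/
theorem deg_le (h12 : ∀ (w : V) (c : G.Walk w w), c.IsCycle → 12 ≤ c.length)
    (h3 : ∀ x y, G.Adj x y → 3 ≤ G.degree x) {x : V} (hx : ∃ y, G.Adj x y) :
    31 * G.degree x + 33 ≤ (supp G).card := by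
  classical
  obtain ⟨c₀, hc₀⟩ := hx
  have h3' := three_of h3
  -- paths from `x`
  have hpath : ∀ {c d v}, G.Adj x c → v ∈ Ord.Bs G d c x →
      ∃ p : G.Walk x v, p.IsPath ∧ p.length = d + 1 ∧ p.getVert 1 = c := by
    intro c d v hc hv
    obtain ⟨p, hp, hpl, hxp⟩ := Ord.mem_Bs.1 hv
    refine ⟨SimpleGraph.Walk.cons hc p, (SimpleGraph.Walk.cons_isPath_iff hc p).2 ⟨hp, hxp⟩, ?_, ?_⟩
    · rw [SimpleGraph.Walk.length_cons, hpl]
    · simp only [SimpleGraph.Walk.getVert_cons_succ, SimpleGraph.Walk.getVert_zero]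
  set T : V → Finset V := fun c => (range 5).biUnion fun d => Ord.Bs G d c x with hT
  have hTcard : ∀ c, G.Adj x c → 31 ≤ (T c).card := by
    intro c hc
    rw [hT]
    simp only
    rw [card_biUnion]
    · calc 31 = ∑ d ∈ range 5, 2 ^ d := by decide
        _ ≤ _ := sum_le_sum fun d hd => Ord.card_Bs h12 h3' hc.symm d (by
          have := mem_range.1 hd
          omega)
    · intro d hd e he hne
      change Disjoint (Ord.Bs G d c x) (Ord.Bs G e c x)
      rw [disjoint_left]
      intro v hv hv'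
      obtain ⟨p, hp, hpl, _⟩ := hpath hc hv
      obtain ⟨q, hq, hql, _⟩ := hpath hc hv'
      have h1 := mem_range.1 (mem_coe.1 hd)
      have h2 := mem_range.1 (mem_coe.1 he)
      have e := Ord.uniq h12 hp hq (by omega)
      rw [e] at hpl
      omega
  have hTdis : ∀ c ∈ G.neighborFinset x, ∀ c' ∈ G.neighborFinset x, c ≠ c' →
      Disjoint (T c) (T c') := by
    intro c hc c' hc' hne
    rw [SimpleGraph.mem_neighborFinset] at hc hc'
    rw [disjoint_left]
    intro v hv hv'
    obtain ⟨d, hd, hv⟩ := mem_biUnion.1 hv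
    obtain ⟨e, he, hv'⟩ := mem_biUnion.1 hv'
    obtain ⟨p, hp, hpl, hp1⟩ := hpath hc hv
    obtain ⟨q, hq, hql, hq1⟩ := hpath hc' hv'
    have h1 := mem_range.1 hd
    have h2 := mem_range.1 he
    have e := Ord.uniq h12 hp hq (by omega)
    rw [e, hq1] at hp1
    exact hne hp1.symm
  set U : Finset V := (G.neighborFinset x).biUnion T with hU
  have hUcard : 31 * G.degree x ≤ U.card := by
    rw [hU, card_biUnion hTdis, ← G.card_neighborFinset_eq_degree, mul_comm, ← smul_eq_mul,
      ← sum_const]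
    exact sum_le_sum fun c hc => hTcard c ((G.mem_neighborFinset x c).1 hc)
  have hW : 32 ≤ (Ord.Bs G 5 c₀ x).card := Ord.card_Bs h12 h3' hc₀.symm 5 le_rfl
  have hUW : Disjoint U (Ord.Bs G 5 c₀ x) := by
    rw [disjoint_left]
    intro v hv hv'
    obtain ⟨c, hc, hv⟩ := mem_biUnion.1 hv
    obtain ⟨d, hd, hv⟩ := mem_biUnion.1 hv
    rw [SimpleGraph.mem_neighborFinset] at hc
    obtain ⟨p, hp, hpl, hp1⟩ := hpath hc hv
    obtain ⟨q, hq, hql, hq1⟩ := hpath hc₀ hv'
    have h1 := mem_range.1 hd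
    have e := Ord.uniq h12 hp hq (by omega)
    rw [e] at hpl
    omega
  have hxn : x ∉ U ∪ Ord.Bs G 5 c₀ x := by
    intro h
    rcases mem_union.1 h with h | h
    · obtain ⟨c, hc, hv⟩ := mem_biUnion.1 h
      obtain ⟨d, hd, hv⟩ := mem_biUnion.1 hv
      obtain ⟨p, hp, hpl, hxp⟩ := Ord.mem_Bs.1 hv
      exact hxp p.end_mem_support
    · obtain ⟨p, hp, hpl, hxp⟩ := Ord.mem_Bs.1 h
      exact hxp p.end_mem_support
  have hsub : insert x (U ∪ Ord.Bs G 5 c₀ x) ⊆ supp G := by
    intro v hv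
    rw [mem_supp]
    rcases mem_insert.1 hv with rfl | hv
    · exact ⟨c₀, hc₀⟩
    rcases mem_union.1 hv with hv | hv
    · obtain ⟨c, hc, hv⟩ := mem_biUnion.1 hv
      obtain ⟨d, hd, hv⟩ := mem_biUnion.1 hv
      rw [SimpleGraph.mem_neighborFinset] at hc
      obtain ⟨p, _⟩ := hpath hc hv
      exact Ord.nbr hc₀ p
    · obtain ⟨p, _⟩ := hpath hc₀ hv
      exact Ord.nbr hc₀ p
  have hfin := card_le_card hsub
  rw [card_insert_of_notMem hxn, card_union_of_disjoint hUW] at hfin
  omega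

/-- the sum of the degrees over a small set -/
theorem sum_deg_le (h12 : ∀ (w : V) (c : G.Walk w w), c.IsCycle → 12 ≤ c.length)
    (h3 : ∀ x y, G.Adj x y → 3 ≤ G.degree x) {S : Finset V} (hS : S ⊆ supp G) :
    31 * ∑ x ∈ S, G.degree x + 33 * S.card ≤ S.card * (supp G).card := by
  have h1 : ∑ x ∈ S, (31 * G.degree x + 33) ≤ ∑ _x ∈ S, (supp G).card :=
    sum_le_sum fun x hx => deg_le h12 h3 (mem_supp.1 (hS hx))
  rw [sum_add_distrib, sum_const, sum_const, ← mul_sum, smul_eq_mul, smul_eq_mul] at h1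
  linarith

/-- If the average number of the neighbours in `S` of the other vertices is at least one then `S` has
at least `32` vertices. -/
theorem dom (h12 : ∀ (w : V) (c : G.Walk w w), c.IsCycle → 12 ≤ c.length)
    (h3 : ∀ x y, G.Adj x y → 3 ≤ G.degree x) (hne : ∃ x y, G.Adj x y) {S : Finset V}
    (hS : S ⊆ supp G)
    (hN : (supp G \ S).card ≤ ∑ x ∈ supp G \ S, (G.neighborFinset x ∩ S).card) :
    32 ≤ S.card := by
  by_contra hcon
  have hn := card_supp h12 h3 hne
  have hcard : (supp G \ S).card + S.card = (supp G).card := card_sdiff_add_card_eq_card hS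
  have h1 := sum_deg_le h12 h3 hS
  have h2 : ∑ x ∈ supp G \ S, (G.neighborFinset x ∩ S).card ≤ ∑ x ∈ S, G.degree x := by
    rw [cross]
    refine sum_le_sum fun x _ => ?_
    rw [← G.card_neighborFinset_eq_degree]
    exact card_le_card inter_subset_left
  have h3' : S.card ≤ 31 := by omega
  have h4 : S.card * (supp G).card ≤ 31 * (supp G).card := Nat.mul_le_mul_right _ h3'
  have h5 : 31 * (supp G \ S).card ≤ 31 * ∑ x ∈ S, G.degree x := by omega
  have h6 : S.card * ((supp G).card - 33) ≤ 31 * ((supp G).card - 33) := Nat.mul_le_mul_right _ h3'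
  have h7 : S.card * ((supp G).card - 33) = S.card * (supp G).card - 33 * S.card := by
    rw [Nat.mul_sub, mul_comm S.card 33]
  omega

end

end Pool.Agent.N393.AHL
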