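import Pool.Agent.N393.AHL.Deg
import Mathlib.Analysis.SpecialFunctions.Trigonometric.DerivHyp

set_option autoImplicit false

/-!
# Sparse parts and deletion sets in graphs of girth at least twelve
-/

namespace Pool.Agent.N393.AHL

open Finset Pool.Agent.TH676.Z Pool.Agent.Y335.FL

theorem tang2_aux {p v : ℝ} (hv : 1 ≤ v) (hp : 0 < p) (hu : 1 ≤ v * p) :
    (1 + v) * (p - 1) ≤ (1 + v * p) * Real.log p := by
  rcases le_total 1 p with h | h
  · have h1 := Real.le_log_one_add_of_nonneg (x := p - 1) (by linarith)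
    rw [add_sub_cancel] at h1
    have h2 : (1 + v * p) * (2 * (p - 1) / (p - 1 + 2)) ≤ (1 + v * p) * Real.log p :=
      mul_le_mul_of_nonneg_left h1 (by nlinarith)
    refine le_trans ?_ h2
    rw [← mul_div_assoc, le_div_iff₀ (by linarith)]
    nlinarith [mul_nonneg (mul_nonneg (sub_nonneg.2 h) (sub_nonneg.2 h)) (sub_nonneg.2 hv)]
  · have h1 : (p - p⁻¹) / 2 ≤ Real.log p := by
      have h2 : -Real.log p ≤ Real.sinh (-Real.log p) := by
        rw [Real.self_le_sinh_iff]
        have := Real.log_nonpos hp.le h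
        linarith
      rw [Real.sinh_neg, Real.sinh_log hp] at h2
      linarith
    have h2 : (1 + v * p) * ((p - p⁻¹) / 2) ≤ (1 + v * p) * Real.log p :=
      mul_le_mul_of_nonneg_left h1 (by nlinarith)
    refine le_trans ?_ h2
    have h3 : (p - p⁻¹) / 2 = (p - 1) * (p + 1) / (2 * p) := by
      field_simp
      ring
    rw [h3, ← mul_div_assoc, le_div_iff₀ (by linarith)]
    nlinarith [mul_nonneg (mul_nonneg (sub_nonneg.2 h) (sub_nonneg.2 h)) (sub_nonneg.2 hu),
      mul_nonneg (sub_nonneg.2 h) (sub_nonneg.2 hu)]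

/-- `x log (x - 1)` lies above its tangents. -/
theorem tang2 {x t : ℝ} (hx : 2 ≤ x) (ht : 2 ≤ t) :
    t * Real.log (t - 1) + (x - t) * (Real.log (t - 1) + t / (t - 1)) ≤ x * Real.log (x - 1) := by
  have hv : 0 < t - 1 := by linarith
  have hu : 0 < x - 1 := by linarith
  set r : ℝ := (x - 1) / (t - 1) with hr
  have hr0 : 0 < r := div_pos hu hv
  have hxr : x - 1 = (t - 1) * r := by
    rw [hr]; field_simp
  have hlog : Real.log (x - 1) = Real.log r + Real.log (t - 1) := by
    rw [hxr, Real.log_mul hv.ne' hr0.ne']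
    ring
  have h4 := tang2_aux (p := r) (v := t - 1) (by linarith) hr0 (by rw [← hxr]; linarith)
  rw [← hxr] at h4
  have h8 : (x - t) * (t / (t - 1)) = (r - 1) * t := by
    have : x - t = (r - 1) * (t - 1) := by linarith
    rw [this]
    field_simp
  rw [hlog]
  nlinarith [h8, h4]

section
variable {V : Type} [Fintype V] [DecidableEq V] {G : SimpleGraph V} [DecidableRel G.Adj]

/-- The Moore bound in terms of the cyclomatic number. -/
theorem core (h12 : ∀ (w : V) (c : G.Walk w w), c.IsCycle → 12 ≤ c.length)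
    (h2 : ∀ x y, G.Adj x y → 2 ≤ G.degree x) (hne : ∃ x y, G.Adj x y) {b : ℕ}
    (hb : ∑ x, G.degree x + 2 ≤ 2 * (supp G).card + 2 * b) {q : ℝ} (hq : 1 ≤ q)
    (hbq : (b : ℝ) ≤ q ^ 6) :
    ((∑ x, G.degree x : ℕ) : ℝ) ≤ (1 + q) * (supp G).card := by
  classical
  set N : ℝ := ((supp G).card : ℝ) with hN
  set M : ℝ := ((∑ x, G.degree x : ℕ) : ℝ) with hM
  have hMs : M = ∑ x ∈ supp G, (G.degree x : ℝ) := by
    rw [hM, Nat.cast_sum]
    symm
    exact sum_subset (subset_univ _) fun x _ hx => by rw [deg_zero hx]; simp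
  have hN0 : 0 < N := by
    obtain ⟨x, y, hxy⟩ := hne
    rw [hN]
    exact_mod_cast card_pos.2 ⟨x, mem_supp.2 ⟨y, hxy⟩⟩
  have hM2 : 2 * N ≤ M := by
    rw [hMs, mul_comm, hN, ← nsmul_eq_mul, ← sum_const]
    refine sum_le_sum fun x hx => ?_
    obtain ⟨z, hz⟩ := mem_supp.1 hx
    exact_mod_cast h2 x z hz
  have hbR : M + 2 ≤ 2 * N + 2 * b := by
    rw [hM, hN]
    exact_mod_cast hb
  set y : ℝ := M / N - 1 with hy
  have hyM : M = (1 + y) * N := by
    rw [hy]; field_simp; ring
  have hy1 : 1 ≤ y := by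
    rw [hy, le_sub_iff_add_le, le_div_iff₀ hN0]
    linarith
  have hL : Real.log y * ∑ x, (G.degree x : ℝ) ≤
      ∑ x, (G.degree x : ℝ) * Real.log ((G.degree x : ℝ) - 1) := by
    have e1 : ∑ x, (G.degree x : ℝ) = M := by rw [hM, Nat.cast_sum]
    have e2 : ∑ x, (G.degree x : ℝ) * Real.log ((G.degree x : ℝ) - 1) =
        ∑ x ∈ supp G, (G.degree x : ℝ) * Real.log ((G.degree x : ℝ) - 1) := by
      symm
      exact sum_subset (subset_univ _) fun x _ hx => by rw [deg_zero hx]; simp
    rw [e1, e2]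
    have h5 : ∑ x ∈ supp G, ((1 + y) * Real.log y + ((G.degree x : ℝ) - (1 + y)) *
        (Real.log y + (1 + y) / y)) ≤
        ∑ x ∈ supp G, (G.degree x : ℝ) * Real.log ((G.degree x : ℝ) - 1) := by
      refine sum_le_sum fun x hx => ?_
      obtain ⟨z, hz⟩ := mem_supp.1 hx
      have h6 : (2 : ℝ) ≤ G.degree x := by exact_mod_cast h2 x z hz
      have h7 := tang2 (x := (G.degree x : ℝ)) (t := 1 + y) h6 (by linarith)
      rw [add_sub_cancel_left] at h7
      exact h7
    refine le_trans (le_of_eq ?_) h5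
    rw [sum_add_distrib, sum_const, ← sum_mul, sum_sub_distrib, sum_const, ← hMs, nsmul_eq_mul,
      nsmul_eq_mul, ← hN, hyM]
    ring
  have h8 := moore h12 h2 hne (y := y) (by linarith) hL
  have h8' : 2 * ∑ d ∈ range 6, y ^ d ≤ N := h8
  simp only [sum_range_succ, sum_range_zero] at h8'
  have h9 : y ^ 6 ≤ b := by
    have h10 : (y - 1) * (2 * (0 + y ^ 0 + y ^ 1 + y ^ 2 + y ^ 3 + y ^ 4 + y ^ 5)) ≤
        (y - 1) * N := mul_le_mul_of_nonneg_left h8' (by linarith)
    have h11 : (y - 1) * (2 * (0 + y ^ 0 + y ^ 1 + y ^ 2 + y ^ 3 + y ^ 4 + y ^ 5)) =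
        2 * (y ^ 6 - 1) := by ring
    rw [h11] at h10
    have h12 : (y - 1) * N = M - 2 * N := by rw [hyM]; ring
    linarith
  have h10 : y ≤ q := by
    by_contra h
    push Not at h
    have := pow_lt_pow_left₀ h (by linarith) (n := 6) (by norm_num)
    linarith
  rw [hyM]
  exact mul_le_mul_of_nonneg_right (by linarith) hN0.le

/-- The degree sum of a set all whose subsets have small cyclomatic number. -/
theorem part_bound (h12 : ∀ (w : V) (c : G.Walk w w), c.IsCycle → 12 ≤ c.length) {b : ℕ} {q : ℝ}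
    (hq : 1 ≤ q) (hbq : (b : ℝ) ≤ q ^ 6) : ∀ (n : ℕ) (C : Finset V), C.card = n →
    (∀ Y ⊆ C, ∑ x ∈ Y, (G.neighborFinset x ∩ Y).card + 2 ≤ 2 * Y.card + 2 * b) →
    ((∑ x ∈ C, (G.neighborFinset x ∩ C).card : ℕ) : ℝ) ≤ (1 + q) * n := by
  classical
  intro n
  induction n with
  | zero =>
    intro C hC _
    rw [card_eq_zero] at hC
    subst hC
    simp
  | succ n ih =>
    intro C hC hY
    by_cases hx : ∃ x ∈ C, (G.neighborFinset x ∩ C).card ≤ 1
    · obtain ⟨x, hx, hx1⟩ := hx
      have h1 := ih (C.erase x) (by rw [card_erase_of_mem hx, hC]; rfl)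
        (fun Y hYs => hY Y (hYs.trans (erase_subset _ _)))
      have h2 : ∑ z ∈ C, (G.neighborFinset z ∩ C).card ≤
          ∑ z ∈ C.erase x, (G.neighborFinset z ∩ C.erase x).card + 2 := by
        rw [← add_sum_erase C _ hx]
        have h3 : ∀ z ∈ C.erase x, (G.neighborFinset z ∩ C).card ≤
            (G.neighborFinset z ∩ C.erase x).card + (if G.Adj x z then 1 else 0) := by
          intro z _
          by_cases hz : G.Adj x z
          · rw [if_pos hz]
            refine le_trans (card_le_card ?_) (card_insert_le x _)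
            intro a ha
            rw [mem_inter] at ha
            rw [mem_insert, mem_inter, mem_erase]
            by_cases hax : a = x
            · exact Or.inl hax
            · exact Or.inr ⟨ha.1, hax, ha.2⟩
          · rw [if_neg hz, add_zero]
            refine card_le_card ?_
            intro a ha
            rw [mem_inter] at ha
            rw [mem_inter, mem_erase]
            refine ⟨ha.1, ?_, ha.2⟩
            rintro rfl
            exact hz ((G.mem_neighborFinset z a).1 ha.1).symm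
        have h4 : ∑ z ∈ C.erase x, (if G.Adj x z then 1 else 0) ≤
            (G.neighborFinset x ∩ C).card := by
          rw [← card_filter]
          refine card_le_card ?_
          intro z hz
          obtain ⟨h5, h6⟩ := mem_filter.1 hz
          exact mem_inter.2 ⟨(G.mem_neighborFinset x z).2 h6, mem_of_mem_erase h5⟩
        have h5 := sum_le_sum h3
        rw [sum_add_distrib] at h5
        omega
      have h3 : ((∑ z ∈ C, (G.neighborFinset z ∩ C).card : ℕ) : ℝ) ≤
          ((∑ z ∈ C.erase x, (G.neighborFinset z ∩ C.erase x).card : ℕ) : ℝ) + 2 := by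
        exact_mod_cast h2
      push_cast at h1 h3 ⊢
      nlinarith
    · push Not at hx
      let F : SimpleGraph V :=
        { Adj := fun a b => G.Adj a b ∧ a ∈ C ∧ b ∈ C
          symm := ⟨fun a b h => ⟨h.1.symm, h.2.2, h.2.1⟩⟩
          loopless := ⟨fun a h => G.loopless.irrefl a h.1⟩ }
      have hFG : F ≤ G := fun a b h => h.1
      have hdec : DecidableRel F.Adj := fun a b => inferInstanceAs (Decidable (G.Adj a b ∧ a ∈ C ∧ b ∈ C))
      have hN : ∀ x ∈ C, F.neighborFinset x = G.neighborFinset x ∩ C := by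
        intro x hx
        ext z
        rw [SimpleGraph.mem_neighborFinset, mem_inter, SimpleGraph.mem_neighborFinset]
        exact ⟨fun h => ⟨h.1, h.2.2⟩, fun h => ⟨h.1, hx, h.2⟩⟩
      have hsupp : supp F = C := by
        ext x
        rw [mem_supp]
        refine ⟨fun ⟨y, h⟩ => h.2.1, fun h => ?_⟩
        have h1 := hx x h
        obtain ⟨y, hy⟩ := card_pos.1 (lt_trans zero_lt_one h1)
        obtain ⟨h2, h3⟩ := mem_inter.1 hy
        exact ⟨y, (G.mem_neighborFinset x y).1 h2, h, h3⟩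
      have hdeg : ∑ x, F.degree x = ∑ x ∈ C, (G.neighborFinset x ∩ C).card := by
        have h1 : ∑ x, F.degree x = ∑ x ∈ C, F.degree x := by
          symm
          refine sum_subset (subset_univ _) fun x _ hx => ?_
          rw [← hsupp] at hx
          exact deg_zero hx
        rw [h1]
        refine sum_congr rfl fun x hx => ?_
        rw [← F.card_neighborFinset_eq_degree, hN x hx]
      have hCne : C.Nonempty := card_pos.1 (by omega)
      have h12F : ∀ (w : V) (c : F.Walk w w), c.IsCycle → 12 ≤ c.length := by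
        intro w c hc
        have h1 := h12 w (c.mapLe hFG) (hc.mapLe hFG)
        simpa using h1
      have h2F : ∀ x y, F.Adj x y → 2 ≤ F.degree x := by
        intro x y hxy
        rw [← F.card_neighborFinset_eq_degree, hN x hxy.2.1]
        exact hx x hxy.2.1
      obtain ⟨x0, hx0⟩ := hCne
      have hneF : ∃ x y, F.Adj x y := by
        rw [← hsupp] at hx0
        obtain ⟨y, hy⟩ := mem_supp.1 hx0
        exact ⟨x0, y, hy⟩
      have h5 := core h12F h2F hneF (b := b) (by
        rw [hdeg, hsupp]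
        exact hY C (Subset.refl _)) hq hbq
      rw [hdeg, hsupp, hC] at h5
      exact_mod_cast h5

/-- Sets whose deletion leaves locally sparse parts and dominated vertices. -/
theorem loc (h12 : ∀ (w : V) (c : G.Walk w w), c.IsCycle → 12 ≤ c.length)
    (h3 : ∀ x y, G.Adj x y → 3 ≤ G.degree x) (hne : ∃ x y, G.Adj x y) {S Z : Finset V} {b : ℕ}
    (hb : b ≤ 63) (hS31 : S.card ≤ 31) (hSb : 31 ^ 6 * b ≤ (62 - S.card) ^ 6)
    (hS : S ⊆ supp G) (hZ : Z ⊆ supp G \ S) (hcl : ∀ x ∈ Z, ∀ y, G.Adj x y → y ∈ Z ∨ y ∈ S)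
    (κ : V → V) (hκ : ∀ x ∈ Z, ∀ y ∈ Z, G.Adj x y → κ x = κ y)
    (hsp : ∀ Y ⊆ Z, (∀ x ∈ Y, ∀ y ∈ Y, κ x = κ y) →
      ∑ x ∈ Y, (G.neighborFinset x ∩ Y).card + 2 ≤ 2 * Y.card + 2 * b)
    (hdom : ∀ x ∈ supp G \ S, x ∉ Z → ∃ y ∈ S, G.Adj x y) : False := by
  classical
  have hpart : ∀ q : ℝ, 1 ≤ q → (b : ℝ) ≤ q ^ 6 →
      ((∑ x ∈ Z, (G.neighborFinset x ∩ Z).card : ℕ) : ℝ) ≤ (1 + q) * Z.card := by
    intro q hq hbq
    set C : V → Finset V := fun l => Z.filter (fun x => κ x = l) with hC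
    have h6 : ∑ x ∈ Z, (G.neighborFinset x ∩ Z).card =
        ∑ l ∈ Z.image κ, ∑ x ∈ C l, (G.neighborFinset x ∩ C l).card := by
      rw [← sum_fiberwise_of_maps_to (s := Z) (t := Z.image κ) (g := κ)
        (fun x hx => mem_image_of_mem _ hx)]
      refine sum_congr rfl fun l _ => sum_congr rfl fun x hx => ?_
      obtain ⟨hx1, hx2⟩ := mem_filter.1 hx
      congr 1
      ext z
      rw [mem_inter, mem_inter, hC]
      simp only [mem_filter]
      refine and_congr_right fun h => ⟨fun hz => ⟨hz, ?_⟩, fun hz => hz.1⟩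
      rw [← hκ x hx1 z hz ((G.mem_neighborFinset x z).1 h), hx2]
    have h7 : Z.card = ∑ l ∈ Z.image κ, (C l).card :=
      card_eq_sum_card_fiberwise (fun x hx => mem_image_of_mem _ hx)
    rw [h6, h7]
    push_cast
    rw [mul_sum]
    refine sum_le_sum fun l _ => ?_
    have h8 := part_bound h12 hq hbq _ (C l) rfl (fun Y hY => hsp Y
      (hY.trans (filter_subset _ _)) (fun x hx y hy => by
        rw [(mem_filter.1 (hY hx)).2, (mem_filter.1 (hY hy)).2]))
    push_cast at h8
    exact h8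
  have h4 : 3 * Z.card ≤ ∑ x ∈ Z, (G.neighborFinset x ∩ S).card +
      ∑ x ∈ Z, (G.neighborFinset x ∩ Z).card := by
    rw [mul_comm, ← smul_eq_mul, ← sum_const, ← sum_add_distrib]
    refine sum_le_sum fun x hx => ?_
    obtain ⟨z, hz⟩ := mem_supp.1 (mem_sdiff.1 (hZ hx)).1
    refine (h3 x z hz).trans ?_
    rw [← G.card_neighborFinset_eq_degree]
    refine le_trans (card_le_card ?_) (card_union_le _ _)
    intro y hy
    rw [mem_union, mem_inter, mem_inter]
    rcases hcl x hx y ((G.mem_neighborFinset x y).1 hy) with h | h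
    · exact Or.inr ⟨hy, h⟩
    · exact Or.inl ⟨hy, h⟩
  have h1 : (supp G \ S).card = ((supp G \ S) \ Z).card + Z.card :=
    (card_sdiff_add_card_eq_card hZ).symm
  have h2 : ∑ x ∈ supp G \ S, (G.neighborFinset x ∩ S).card =
      ∑ x ∈ (supp G \ S) \ Z, (G.neighborFinset x ∩ S).card +
        ∑ x ∈ Z, (G.neighborFinset x ∩ S).card := (sum_sdiff hZ).symm
  have h3a : ((supp G \ S) \ Z).card ≤ ∑ x ∈ (supp G \ S) \ Z, (G.neighborFinset x ∩ S).card := by
    rw [card_eq_sum_ones]
    refine sum_le_sum fun x hx => ?_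
    obtain ⟨y, hy, hxy⟩ := hdom x (mem_sdiff.1 hx).1 (mem_sdiff.1 hx).2
    exact card_pos.2 ⟨y, mem_inter.2 ⟨(G.mem_neighborFinset x y).2 hxy, hy⟩⟩
  have h5 : ∑ x ∈ supp G \ S, (G.neighborFinset x ∩ S).card ≤ ∑ x ∈ S, G.degree x := by
    rw [cross]
    refine sum_le_sum fun x _ => ?_
    rw [← G.card_neighborFinset_eq_degree]
    exact card_le_card inter_subset_left
  have h6 := sum_deg_le h12 h3 hS
  have h7 : (supp G \ S).card + S.card = (supp G).card := card_sdiff_add_card_eq_card hS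
  have h8 := card_supp h12 h3 hne
  rcases Nat.eq_zero_or_pos S.card with hs | hs
  · -- no deleted vertices
    have h9 := hpart (399 / 200) (by norm_num) (by
      have : (b : ℝ) ≤ 63 := by exact_mod_cast hb
      refine this.trans ?_
      norm_num)
    rw [card_eq_zero] at hs
    subst hs
    have h10 : ∑ x ∈ Z, (G.neighborFinset x ∩ (∅ : Finset V)).card = 0 := by simp
    have h11 : ∑ x ∈ (supp G \ ∅) \ Z, (G.neighborFinset x ∩ (∅ : Finset V)).card = 0 := by simp
    rw [h10] at h4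
    rw [h11] at h3a
    rw [card_empty] at h7
    have h12 : (3 : ℝ) * Z.card ≤ ((∑ x ∈ Z, (G.neighborFinset x ∩ Z).card : ℕ) : ℝ) := by
      exact_mod_cast (by omega : 3 * Z.card ≤ ∑ x ∈ Z, (G.neighborFinset x ∩ Z).card)
    have h13 : (126 : ℝ) ≤ Z.card := by
      exact_mod_cast (by omega : 126 ≤ Z.card)
    linarith
  · set s : ℝ := (S.card : ℝ) with hsR
    have hs1 : (1 : ℝ) ≤ s := by rw [hsR]; exact_mod_cast hs
    have hs31 : s ≤ 31 := by rw [hsR]; exact_mod_cast hS31
    have h9 := hpart ((62 - s) / 31) (by rw [le_div_iff₀ (by norm_num)]; linarith) (by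
      have h10 : ((31 : ℝ) ^ 6) * b ≤ (62 - s) ^ 6 := by
        have h11 : ((31 ^ 6 * b : ℕ) : ℝ) ≤ (((62 - S.card) ^ 6 : ℕ) : ℝ) :=
          Nat.cast_le.2 hSb
        rw [Nat.cast_mul, Nat.cast_pow, Nat.cast_pow, Nat.cast_sub (by omega)] at h11
        exact h11
      rw [div_pow, le_div_iff₀ (by positivity)]
      linarith)
    set A : ℝ := ((∑ x ∈ Z, (G.neighborFinset x ∩ S).card : ℕ) : ℝ) with hA
    set B : ℝ := ((∑ x ∈ Z, (G.neighborFinset x ∩ Z).card : ℕ) : ℝ) with hB
    set D : ℝ := ((∑ x ∈ (supp G \ S) \ Z, (G.neighborFinset x ∩ S).card : ℕ) : ℝ) with hD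
    have k4 : 3 * (Z.card : ℝ) ≤ A + B := by rw [hA, hB]; exact_mod_cast h4
    have k3 : (((supp G \ S) \ Z).card : ℝ) ≤ D := by rw [hD]; exact_mod_cast h3a
    have k1 : ((supp G \ S).card : ℝ) = (((supp G \ S) \ Z).card : ℝ) + Z.card := by
      exact_mod_cast h1
    have k7 : ((supp G \ S).card : ℝ) + s = (supp G).card := by rw [hsR]; exact_mod_cast h7
    have k5 : D + A ≤ ((∑ x ∈ S, G.degree x : ℕ) : ℝ) := by
      rw [hD, hA]
      exact_mod_cast (by omega : ∑ x ∈ (supp G \ S) \ Z, (G.neighborFinset x ∩ S).card +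
        ∑ x ∈ Z, (G.neighborFinset x ∩ S).card ≤ ∑ x ∈ S, G.degree x)
    have k6 : 31 * ((∑ x ∈ S, G.degree x : ℕ) : ℝ) + 33 * s ≤ s * (supp G).card := by
      rw [hsR]
      exact_mod_cast h6
    have hz0 : (0 : ℝ) ≤ Z.card := Nat.cast_nonneg _
    have hr0 : (0 : ℝ) ≤ ((supp G \ S) \ Z).card := Nat.cast_nonneg _
    have k9 : s / 31 * Z.card ≤ A := by
      have : (1 + (62 - s) / 31) * (Z.card : ℝ) = 3 * Z.card - s / 31 * Z.card := by ring
      rw [this] at h9
      linarith
    have k10 : s / 31 * (((supp G \ S) \ Z).card : ℝ) ≤ D := by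
      have : s / 31 * (((supp G \ S) \ Z).card : ℝ) ≤ 1 * (((supp G \ S) \ Z).card : ℝ) := by
        refine mul_le_mul_of_nonneg_right ?_ hr0
        rw [div_le_one (by norm_num)]
        exact hs31
      linarith
    have k11 : s / 31 * ((supp G \ S).card : ℝ) ≤ ((∑ x ∈ S, G.degree x : ℕ) : ℝ) := by
      rw [k1, mul_add]
      linarith
    have k12 : s * ((supp G \ S).card : ℝ) ≤ 31 * ((∑ x ∈ S, G.degree x : ℕ) : ℝ) := by
      have : s * ((supp G \ S).card : ℝ) = 31 * (s / 31 * ((supp G \ S).card : ℝ)) := by ring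
      rw [this]
      linarith
    rw [← k7] at k6
    nlinarith

end

end Pool.Agent.N393.AHL
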