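import Pool.Agent.N393.AHL.Loc
import Pool.Agent.N393.AHL.Cls

set_option autoImplicit false
set_option linter.unusedSectionVars false

/-!
# Deletion sets which leave locally sparse parts: closure under contractions and flows
-/

namespace Pool.Agent.N393.AHL

open Finset Pool.Agent.TH676.Z Pool.Agent.Y335.FL Pool.Agent.Y358.IN

section
variable {V E : Type} [Fintype V] [DecidableEq V] [Fintype E] [DecidableEq E]

/-- the class -/
def ClL (src dst : E → V) : Prop := ∃ (b : ℕ) (S Z : Finset V) (κ : V → V),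
  b ≤ 63 ∧ S.card ≤ 31 ∧ 31 ^ 6 * b ≤ (62 - S.card) ^ 6 ∧ Disjoint S Z ∧
  (∀ x ∈ Z, ∀ y, Adj src dst x y → y ∈ S ∨ (y ∈ Z ∧ κ y = κ x)) ∧
  (∀ Y ⊆ Z, (∀ x ∈ Y, ∀ y ∈ Y, κ x = κ y) → (ins src dst Y).card + 1 ≤ Y.card + b) ∧
  ∀ x, x ∉ S → x ∉ Z → 3 ≤ dg src dst x → ∃ y ∈ S, Adj src dst x y

theorem ccL : CC (V := V) (E := E) ClL := by
  classical
  intro src dst e h hne
  obtain ⟨b, S, Z, κ, hb, hS, hSb, hSZ, hcl, hsp, hdom⟩ := h
  set u := src e with hu
  set v := dst e with hv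
  have huv : Adj src dst u v := ⟨hne, e, Or.inl ⟨rfl, rfl⟩⟩
  set S' := S.image (ctr u v) with hS'
  set Z' := Z.image (ctr u v) \ S' with hZ'
  have hnS : ∀ {a x : V}, ctr u v a = x → x ∉ S' → a ∉ S := by
    intro a x ha hx haS
    exact hx (mem_image.2 ⟨a, haS, ha⟩)
  have hlZ : ∀ {a x : V}, ctr u v a = x → x ∈ Z' → a ∈ Z := by
    intro a x ha hx
    obtain ⟨hx1, hx2⟩ := mem_sdiff.1 hx
    obtain ⟨b, hb, hbx⟩ := mem_image.1 hx1
    rcases ctr_cases ha with h | ⟨h1, h2⟩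
    · rcases ctr_cases hbx with h' | ⟨h1', h2'⟩
      · rw [h, ← h']; exact hb
      · rw [h, h2']
        rw [h1'] at hb
        rcases hcl v hb u (GiAux.adj_symm huv) with h3 | h3
        · exact absurd h3 (hnS (ctr_u _ _ hne) (by rw [← h2']; exact hx2))
        · exact h3.1
    · rw [h1]
      rcases ctr_cases hbx with h' | ⟨h1', h2'⟩
      · rw [h', h2] at hb
        rcases hcl u hb v huv with h3 | h3
        · exact absurd h3 (hnS (ctr_v _ _) (by rw [← h2]; exact hx2))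
        · exact h3.1
      · rw [← h1']; exact hb
  have hκl : ∀ {a x : V}, ctr u v a = x → x ∈ Z' → κ a = κ x := by
    intro a x ha hx
    rcases ctr_cases ha with h | ⟨h1, h2⟩
    · rw [h]
    · have h3 : u ∈ Z := hlZ (ctr_u _ _ hne) (by rw [← h2]; exact hx)
      rcases hcl u h3 v huv with h4 | h4
      · exact absurd h4 (hnS (ctr_v _ _) (by rw [← h2]; exact (mem_sdiff.1 hx).2))
      · rw [h1, h2]; exact h4.2
  have himZ : ∀ {a : V}, a ∈ Z → ctr u v a ∉ S' → ctr u v a ∈ Z' := by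
    intro a ha h
    exact mem_sdiff.2 ⟨mem_image_of_mem _ ha, h⟩
  have hSc : S'.card ≤ S.card := card_image_le
  refine ⟨b, S', Z', κ, hb, hSc.trans hS, hSb.trans ?_, ?_, ?_, ?_, ?_⟩
  · exact Nat.pow_le_pow_left (Nat.sub_le_sub_left hSc _) _
  · rw [disjoint_left]
    intro x hx hx'
    exact (mem_sdiff.1 hx').2 hx
  · intro x hx y hxy
    obtain ⟨x1, y1, h1, h2, h3⟩ := lift_adj hxy
    by_cases hyS : y ∈ S'
    · exact Or.inl hyS
    · right
      rcases hcl x1 (hlZ h1 hx) y1 h3 with h4 | h4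
      · exact absurd (by rw [← h2]; exact mem_image_of_mem _ h4) hyS
      · have h5 : y ∈ Z' := by
          rw [← h2]
          exact himZ h4.1 (by rw [h2]; exact hyS)
        refine ⟨h5, ?_⟩
        rw [← hκl h2 h5, ← hκl h1 hx, h4.2]
  · intro Y hY hYκ
    set Y0 : Finset V := univ.filter (fun x => ctr u v x ∈ Y) with hY0
    have hY0Z : Y0 ⊆ Z := fun x hx => hlZ rfl (hY (mem_filter.1 hx).2)
    have h1 : ins (ctr u v ∘ src) (ctr u v ∘ dst) Y ⊆ ins src dst Y0 := by
      intro d hd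
      obtain ⟨h1, h2, h3⟩ := mem_ins.1 hd
      exact mem_ins.2 ⟨mem_filter.2 ⟨mem_univ _, h1⟩, mem_filter.2 ⟨mem_univ _, h2⟩,
        fun h => h3 (by rw [Function.comp, Function.comp, h])⟩
    have h2 := hsp Y0 hY0Z (fun x hx y hy => by
      have hx' := (mem_filter.1 hx).2
      have hy' := (mem_filter.1 hy).2
      rw [hκl rfl (hY hx'), hκl rfl (hY hy')]
      exact hYκ _ hx' _ hy')
    by_cases huY : u ∈ Y
    · have h3 : Y0 ⊆ insert v Y := by
        intro x hx
        have hx' := (mem_filter.1 hx).2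
        rcases ctr_cases (rfl : ctr u v x = ctr u v x) with h | ⟨h, _⟩
        · rw [← h] at hx'
          exact mem_insert_of_mem hx'
        · rw [h]; exact mem_insert_self _ _
      have h4 : e ∈ ins src dst Y0 := mem_ins.2 ⟨mem_filter.2 ⟨mem_univ _, by
        change ctr u v u ∈ Y
        rw [ctr_u _ _ hne]; exact huY⟩, mem_filter.2 ⟨mem_univ _, by
        change ctr u v v ∈ Y
        rw [ctr_v]; exact huY⟩, hne⟩
      have h5 : e ∉ ins (ctr u v ∘ src) (ctr u v ∘ dst) Y := by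
        intro h
        apply (mem_ins.1 h).2.2
        change ctr u v u = ctr u v v
        rw [ctr_u _ _ hne, ctr_v]
      have h6 : (ins (ctr u v ∘ src) (ctr u v ∘ dst) Y).card + 1 ≤ (ins src dst Y0).card := by
        rw [← card_insert_of_notMem h5]
        exact card_le_card (insert_subset h4 h1)
      have h7 := (card_le_card h3).trans (card_insert_le _ _)
      omega
    · have h3 : Y0 ⊆ Y := by
        intro x hx
        have hx' := (mem_filter.1 hx).2
        rcases ctr_cases (rfl : ctr u v x = ctr u v x) with h | ⟨_, h⟩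
        · rw [← h] at hx'
          exact hx'
        · rw [h] at hx'
          exact absurd hx' huY
      have h4 := card_le_card h1
      have h5 := card_le_card h3
      omega
  · intro x hxS hxZ hdx
    obtain ⟨x0, h1, h2⟩ := lift3 hne hdx
    have h3 : x0 ∉ S := hnS h1 hxS
    have h4 : x0 ∉ Z := by
      intro h
      apply hxZ
      rw [← h1]
      exact himZ h (by rw [h1]; exact hxS)
    obtain ⟨y, hy, hxy⟩ := hdom x0 h3 h4 h2
    refine ⟨ctr u v y, mem_image_of_mem _ hy, ?_⟩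
    rw [← h1]
    refine adj_ctr hxy ?_
    intro h5
    apply hxS
    rw [← h1, h5]
    exact mem_image_of_mem _ hy

/-- **Locally few circuits.** -/
theorem flow_of_ClL (hc : St_contract) (src dst : E → V)
    (hcl : ClL src dst) (hbr : Br src dst ∅ ∅) : FlowOn src dst ∅ ∅ := by
  classical
  by_contra hn
  obtain ⟨s, d, ⟨b, S, Z, κ, hb, hS, hSb, hSZ, hcl, hsp, hdom⟩, hM⟩ :=
    exists_minC ccL src dst hcl hbr hn
  obtain ⟨G, hG, h12, h3, hne, hdg⟩ := frame hc hM
  have hS5 : (S ∩ supp G).card ≤ S.card := card_le_card inter_subset_left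
  refine loc h12 (deg3_of h3) hne (S := S ∩ supp G) (Z := Z ∩ supp G) (b := b) hb
    (hS5.trans hS) (hSb.trans ?_) inter_subset_right ?_ ?_ κ ?_ ?_ ?_
  · exact Nat.pow_le_pow_left (Nat.sub_le_sub_left hS5 _) _
  · intro x hx
    obtain ⟨h5, h6⟩ := mem_inter.1 hx
    exact mem_sdiff.2 ⟨h6, fun h => disjoint_left.1 hSZ (mem_inter.1 h).1 h5⟩
  · intro x hx y hxy
    have hy : y ∈ supp G := mem_supp.2 ⟨x, hxy.symm⟩
    rcases hcl x (mem_inter.1 hx).1 y ((hG x y).1 hxy) with h | h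
    · exact Or.inr (mem_inter.2 ⟨h, hy⟩)
    · exact Or.inl (mem_inter.2 ⟨h.1, hy⟩)
  · intro x hx y hy hxy
    rcases hcl x (mem_inter.1 hx).1 y ((hG x y).1 hxy) with h | h
    · exact absurd (mem_inter.1 hy).1 (fun h' => disjoint_left.1 hSZ h h')
    · exact h.2.symm
  · intro Y hY hYκ
    have h1 := ins_sum hG Y
    have h2 := hsp Y (hY.trans inter_subset_left) hYκ
    omega
  · intro x hx hxZ
    obtain ⟨h7, h8⟩ := mem_sdiff.1 hx
    obtain ⟨y, hy⟩ := mem_supp.1 h7
    obtain ⟨z, hz, hxz⟩ := hdom x (fun h => h8 (mem_inter.2 ⟨h, h7⟩))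
      (fun h => hxZ (mem_inter.2 ⟨h, h7⟩)) (hdg x y hy)
    have h9 := (hG x z).2 hxz
    exact ⟨z, mem_inter.2 ⟨hz, mem_supp.2 ⟨x, h9.symm⟩⟩, h9⟩

end

end Pool.Agent.N393.AHL
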