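import Pool.Agent.N393.AHL.Walks

set_option autoImplicit false

/-!
# The Moore bound for irregular graphs of girth at least twelve
-/

namespace Pool.Agent.N393.AHL

open Finset Pool.Agent.TH676.Z Pool.Agent.Y335.FL

section
variable {V : Type} [Fintype V] [DecidableEq V] {G : SimpleGraph V} [DecidableRel G.Adj]

theorem dart_swap (F : V → V → ℝ) :
    ∑ x, ∑ y ∈ G.neighborFinset x, F x y = ∑ x, ∑ y ∈ G.neighborFinset x, F y x := by
  have h1 : ∀ F : V → V → ℝ, ∑ x, ∑ y ∈ G.neighborFinset x, F x y =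
      ∑ x, ∑ y, if G.Adj x y then F x y else 0 := by
    intro F
    refine sum_congr rfl fun x _ => ?_
    rw [← sum_filter]
    refine sum_congr ?_ fun _ _ => rfl
    ext y
    rw [SimpleGraph.mem_neighborFinset, mem_filter]
    exact ⟨fun h => ⟨mem_univ _, h⟩, fun h => h.2⟩
  rw [h1, h1, sum_comm]
  refine sum_congr rfl fun x _ => sum_congr rfl fun y _ => ?_
  simp only [G.adj_comm x y]

theorem erase_sum {s : Finset V} (g : V → ℝ) :
    ∑ y ∈ s, ∑ w ∈ s.erase y, g w = ((s.card : ℝ) - 1) * ∑ w ∈ s, g w := by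
  have h1 : ∀ y ∈ s, ∑ w ∈ s.erase y, g w = ∑ w ∈ s, g w - g y := by
    intro y hy
    rw [← add_sum_erase s g hy]
    ring
  rw [sum_congr rfl h1, sum_sub_distrib, sum_const, nsmul_eq_mul]
  ring

/-- the sum of the logarithms of the numbers of the paths -/
noncomputable def pot (G : SimpleGraph V) [DecidableRel G.Adj] (d : ℕ) : ℝ :=
  ∑ x, ∑ y ∈ G.neighborFinset x, Real.log (Ord.Bs G d x y).card

theorem b_pos (h12 : ∀ (w : V) (c : G.Walk w w), c.IsCycle → 12 ≤ c.length)
    (h2 : ∀ x y, G.Adj x y → 2 ≤ G.degree x) : ∀ d : ℕ, d ≤ 5 → ∀ x y, G.Adj x y →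
    0 < (Ord.Bs G d x y).card := by
  intro d
  induction d with
  | zero => intro _ x y hxy; exact b_zero hxy
  | succ d ih =>
    intro hd x y hxy
    refine lt_of_lt_of_le ?_ (b_succ h12 hxy (d := d) (by omega))
    have h3 : 0 < ((G.neighborFinset x).erase y).card := by
      rw [card_erase_of_mem ((G.mem_neighborFinset x y).2 hxy), G.card_neighborFinset_eq_degree]
      have := h2 x y hxy
      omega
    obtain ⟨w, hw⟩ := card_pos.1 h3
    have a1 : G.Adj x w := (G.mem_neighborFinset x w).1 (mem_of_mem_erase hw)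
    exact sum_pos' (fun _ _ => Nat.zero_le _) ⟨w, hw, ih (by omega) w x a1.symm⟩

theorem pot_succ (h12 : ∀ (w : V) (c : G.Walk w w), c.IsCycle → 12 ≤ c.length)
    (h2 : ∀ x y, G.Adj x y → 2 ≤ G.degree x) {d : ℕ} (hd : d ≤ 4) :
    ∑ x, (G.degree x : ℝ) * Real.log ((G.degree x : ℝ) - 1) + pot G d ≤ pot G (d + 1) := by
  have h3 : ∀ x y, G.Adj x y → Real.log ((G.degree x : ℝ) - 1) +
      (∑ w ∈ (G.neighborFinset x).erase y, Real.log (Ord.Bs G d w x).card) /
        ((G.degree x : ℝ) - 1) ≤ Real.log (Ord.Bs G (d + 1) x y).card := by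
    intro x y hxy
    have hc : ((G.neighborFinset x).erase y).card = G.degree x - 1 := by
      rw [card_erase_of_mem ((G.mem_neighborFinset x y).2 hxy), G.card_neighborFinset_eq_degree]
    have hdg := h2 x y hxy
    have hcR : (((G.neighborFinset x).erase y).card : ℝ) = (G.degree x : ℝ) - 1 := by
      rw [hc, Nat.cast_sub (by omega)]
      simp
    have hpos : ∀ w ∈ (G.neighborFinset x).erase y, (0 : ℝ) < (Ord.Bs G d w x).card := by
      intro w hw
      have a1 : G.Adj x w := (G.mem_neighborFinset x w).1 (mem_of_mem_erase hw)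
      exact_mod_cast b_pos h12 h2 d (by omega) w x a1.symm
    have hne : ((G.neighborFinset x).erase y).Nonempty := by
      rw [← card_pos, hc]
      omega
    have h4 := log_sum _ _ hne hpos
    rw [hcR] at h4
    refine h4.trans ?_
    refine Real.log_le_log (sum_pos hpos hne) ?_
    exact_mod_cast b_succ h12 hxy (d := d) (by omega)
  have h5 : ∑ x, (G.degree x : ℝ) * Real.log ((G.degree x : ℝ) - 1) + pot G d =
      ∑ x, ∑ y ∈ G.neighborFinset x, (Real.log ((G.degree x : ℝ) - 1) +
      (∑ w ∈ (G.neighborFinset x).erase y, Real.log (Ord.Bs G d w x).card) /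
        ((G.degree x : ℝ) - 1)) := by
    unfold pot
    rw [dart_swap, ← sum_add_distrib]
    refine sum_congr rfl fun x _ => ?_
    rw [sum_add_distrib, sum_const, G.card_neighborFinset_eq_degree, nsmul_eq_mul, ← sum_div,
      erase_sum, G.card_neighborFinset_eq_degree]
    congr 1
    rcases Nat.eq_zero_or_pos (G.degree x) with h0 | h0
    · have : G.neighborFinset x = ∅ := by
        rw [← card_eq_zero, G.card_neighborFinset_eq_degree]
        exact h0
      rw [this]
      simp
    · obtain ⟨y, hy⟩ := card_pos.1 (by rw [G.card_neighborFinset_eq_degree]; exact h0 :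
        0 < (G.neighborFinset x).card)
      have h6 := h2 x y ((G.mem_neighborFinset x y).1 hy)
      have h7 : (0 : ℝ) < (G.degree x : ℝ) - 1 := by
        have : (2 : ℝ) ≤ G.degree x := by exact_mod_cast h6
        linarith
      rw [mul_div_assoc, mul_comm, div_mul_cancel₀ _ h7.ne']
  rw [h5]
  unfold pot
  refine sum_le_sum fun x _ => sum_le_sum fun y hy => ?_
  exact h3 x y ((G.mem_neighborFinset x y).1 hy)

theorem pot_ge (h12 : ∀ (w : V) (c : G.Walk w w), c.IsCycle → 12 ≤ c.length)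
    (h2 : ∀ x y, G.Adj x y → 2 ≤ G.degree x) : ∀ d : ℕ, d ≤ 5 →
    (d : ℝ) * ∑ x, (G.degree x : ℝ) * Real.log ((G.degree x : ℝ) - 1) ≤ pot G d := by
  intro d
  induction d with
  | zero =>
    intro _
    rw [Nat.cast_zero, zero_mul]
    unfold pot
    refine sum_nonneg fun x _ => sum_nonneg fun y hy => ?_
    refine Real.log_nonneg ?_
    exact_mod_cast b_zero ((G.mem_neighborFinset x y).1 hy)
  | succ d ih =>
    intro hd
    have h3 := ih (by omega)
    have h4 := pot_succ h12 h2 (d := d) (by omega)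
    push_cast
    linarith

/-- **The Moore bound for irregular graphs.** -/
theorem moore (h12 : ∀ (w : V) (c : G.Walk w w), c.IsCycle → 12 ≤ c.length)
    (h2 : ∀ x y, G.Adj x y → 2 ≤ G.degree x) (hne : ∃ x y, G.Adj x y) {y : ℝ} (hy : 0 < y)
    (hL : Real.log y * ∑ x, (G.degree x : ℝ) ≤
      ∑ x, (G.degree x : ℝ) * Real.log ((G.degree x : ℝ) - 1)) :
    2 * ∑ d ∈ range 6, y ^ d ≤ ((univ.filter (fun v => ∃ y, G.Adj v y)).card : ℝ) := by
  set M : ℝ := ∑ x, (G.degree x : ℝ) with hM
  have hM0 : 0 < M := by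
    obtain ⟨x, z, hxz⟩ := hne
    have h3 : (2 : ℝ) ≤ G.degree x := by exact_mod_cast h2 x z hxz
    have h4 : (G.degree x : ℝ) ≤ M :=
      single_le_sum (f := fun x => (G.degree x : ℝ)) (fun _ _ => Nat.cast_nonneg _) (mem_univ x)
    linarith
  have h3 : ∀ d : ℕ, d ≤ 5 → y ^ d * M ≤
      ∑ x, ∑ z ∈ G.neighborFinset x, ((Ord.Bs G d x z).card : ℝ) := by
    intro d hd
    have hyd : 0 < y ^ d := pow_pos hy d
    have h4 : ∑ x, ∑ z ∈ G.neighborFinset x, (y ^ d * (1 + Real.log (Ord.Bs G d x z).card -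
        d * Real.log y)) ≤ ∑ x, ∑ z ∈ G.neighborFinset x, ((Ord.Bs G d x z).card : ℝ) := by
      refine sum_le_sum fun x _ => sum_le_sum fun z hz => ?_
      have hb : (0 : ℝ) < (Ord.Bs G d x z).card := by
        exact_mod_cast b_pos h12 h2 d hd x z ((G.mem_neighborFinset x z).1 hz)
      have h5 := Real.log_le_sub_one_of_pos (div_pos hb hyd)
      rw [Real.log_div hb.ne' hyd.ne', Real.log_pow] at h5
      have h6 : 1 + Real.log (Ord.Bs G d x z).card - d * Real.log y ≤
          (Ord.Bs G d x z).card / y ^ d := by linarith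
      calc y ^ d * (1 + Real.log (Ord.Bs G d x z).card - d * Real.log y) ≤
          y ^ d * ((Ord.Bs G d x z).card / y ^ d) := mul_le_mul_of_nonneg_left h6 hyd.le
        _ = _ := by field_simp
    refine le_trans ?_ h4
    have h7 : ∑ x, ∑ z ∈ G.neighborFinset x, (y ^ d * (1 + Real.log (Ord.Bs G d x z).card -
        d * Real.log y)) = y ^ d * (M + pot G d - d * Real.log y * M) := by
      unfold pot
      rw [hM, mul_sub, mul_add, mul_sum, mul_sum, mul_sum, mul_sum, ← sum_add_distrib,
        ← sum_sub_distrib]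
      refine sum_congr rfl fun x _ => ?_
      rw [← mul_sum]
      simp only [sum_add_distrib, sum_sub_distrib, sum_const, nsmul_eq_mul, mul_one,
        G.card_neighborFinset_eq_degree]
      ring
    rw [h7]
    refine mul_le_mul_of_nonneg_left ?_ hyd.le
    have h8 := pot_ge h12 h2 d hd
    have h9 : (d : ℝ) * (Real.log y * M) ≤
        d * ∑ x, (G.degree x : ℝ) * Real.log ((G.degree x : ℝ) - 1) :=
      mul_le_mul_of_nonneg_left hL (Nat.cast_nonneg _)
    nlinarith
  set n : ℝ := ((univ.filter (fun v => ∃ y, G.Adj v y)).card : ℝ) with hn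
  have h10 : ∑ x, ∑ z ∈ G.neighborFinset x, (∑ d ∈ range 6, ((Ord.Bs G d x z).card : ℝ) +
      ∑ d ∈ range 6, ((Ord.Bs G d z x).card : ℝ)) ≤ n * M := by
    rw [hM, mul_sum]
    refine sum_le_sum fun x _ => ?_
    calc _ ≤ ∑ z ∈ G.neighborFinset x, n := by
          refine sum_le_sum fun z hz => ?_
          rw [hn]
          exact_mod_cast b_sum h12 ((G.mem_neighborFinset x z).1 hz)
      _ = n * (G.degree x : ℝ) := by
          rw [sum_const, nsmul_eq_mul, G.card_neighborFinset_eq_degree, mul_comm]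
  have h11 : ∑ x, ∑ z ∈ G.neighborFinset x, (∑ d ∈ range 6, ((Ord.Bs G d x z).card : ℝ) +
      ∑ d ∈ range 6, ((Ord.Bs G d z x).card : ℝ)) =
      2 * ∑ d ∈ range 6, ∑ x, ∑ z ∈ G.neighborFinset x, ((Ord.Bs G d x z).card : ℝ) := by
    simp only [sum_add_distrib]
    rw [dart_swap (G := G) (fun x z => ∑ d ∈ range 6, ((Ord.Bs G d z x).card : ℝ)), ← two_mul]
    congr 1
    symm
    rw [sum_comm]
    exact sum_congr rfl fun x _ => sum_comm
  rw [h11] at h10
  have h12' : ∑ d ∈ range 6, y ^ d * M ≤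
      ∑ d ∈ range 6, ∑ x, ∑ z ∈ G.neighborFinset x, ((Ord.Bs G d x z).card : ℝ) := by
    refine sum_le_sum fun d hd => h3 d ?_
    have := mem_range.1 hd
    omega
  rw [← sum_mul] at h12'
  have h13 : (2 * ∑ d ∈ range 6, y ^ d) * M ≤ n * M := by linarith
  exact le_of_mul_le_mul_right h13 hM0

end

end Pool.Agent.N393.AHL
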