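import Pool.Agent.N393.AHL.Deg
import Mathlib.Combinatorics.SimpleGraph.Acyclic
import Mathlib.Combinatorics.SimpleGraph.DegreeSum

set_option autoImplicit false

/-!
# Deletion sets which leave small parts, in graphs of girth at least twelve
-/

namespace Pool.Agent.N393.AHL

open Finset Pool.Agent.TH676.Z Pool.Agent.Y335.FL

section
variable {V : Type} [Fintype V] [DecidableEq V] {G : SimpleGraph V} [DecidableRel G.Adj]

theorem acyclic_edges {W : Type} [Fintype W] [DecidableEq W] [Nonempty W] (F : SimpleGraph W)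
    [DecidableRel F.Adj] (hF : F.IsAcyclic) : F.edgeFinset.card + 1 ≤ Fintype.card W := by
  classical
  obtain ⟨T, hFT, _, hT⟩ := SimpleGraph.Connected.exists_isTree_le_of_le_of_isAcyclic
    (G := (⊤ : SimpleGraph W)) SimpleGraph.connected_top le_top hF
  have h1 := hT.card_edgeFinset
  have h2 : F.edgeFinset.card ≤ T.edgeFinset.card :=
    card_le_card (SimpleGraph.edgeFinset_mono hFT)
  omega

/-- small sets span forests -/
theorem forest_sum (h12 : ∀ (w : V) (c : G.Walk w w), c.IsCycle → 12 ≤ c.length)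
    {C : Finset V} (hC : C.Nonempty) (h11 : C.card ≤ 11) :
    ∑ x ∈ C, (G.neighborFinset x ∩ C).card + 2 ≤ 2 * C.card := by
  classical
  let F : SimpleGraph C := G.comap (Function.Embedding.subtype _)
  have hF : F.IsAcyclic := by
    intro v c hc
    let φ : F →g G := ⟨Subtype.val, fun {a b} h => h⟩
    have h1 : (c.map φ).IsCycle := hc.map Subtype.val_injective
    have h2 := h12 _ _ h1
    rw [SimpleGraph.Walk.length_map] at h2
    have h3 : c.support.tail.Nodup := hc.support_nodup
    have h4 : c.support.tail.length ≤ Fintype.card C := h3.length_le_card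
    rw [List.length_tail, SimpleGraph.Walk.length_support, Fintype.card_coe] at h4
    omega
  have hne : Nonempty C := hC.to_subtype
  have h1 := acyclic_edges F hF
  have h2 := F.sum_degrees_eq_twice_card_edges
  have h3 : ∑ x ∈ C, (G.neighborFinset x ∩ C).card = ∑ x : C, F.degree x := by
    rw [← sum_coe_sort C (fun x => (G.neighborFinset x ∩ C).card)]
    refine sum_congr rfl fun x _ => ?_
    rw [← F.card_neighborFinset_eq_degree, ← card_map (Function.Embedding.subtype _)]
    congr 1
    ext z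
    rw [mem_inter, SimpleGraph.mem_neighborFinset, mem_map]
    constructor
    · rintro ⟨h4, h5⟩
      exact ⟨⟨z, h5⟩, (F.mem_neighborFinset _ _).2 h4, rfl⟩
    · rintro ⟨a, h4, rfl⟩
      exact ⟨(F.mem_neighborFinset _ _).1 h4, a.2⟩
  rw [h3, h2]
  rw [Fintype.card_coe] at h1
  omega

/-- The sets whose deletion leaves parts with at most `p` vertices. -/
theorem parts (h12 : ∀ (w : V) (c : G.Walk w w), c.IsCycle → 12 ≤ c.length)
    (h3 : ∀ x y, G.Adj x y → 3 ≤ G.degree x) (hne : ∃ x y, G.Adj x y) {p : ℕ} (hp : p ≤ 11)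
    {S : Finset V} (hS : S ⊆ supp G) (κ : V → V)
    (hκ : ∀ x y, G.Adj x y → x ∉ S → y ∉ S → κ x = κ y)
    (hc : ∀ l, ((supp G \ S).filter (fun x => κ x = l)).card ≤ p) :
    63 * (p + 2) ≤ (2 * p + 1) * S.card := by
  classical
  set I := supp G \ S with hI
  set C : V → Finset V := fun l => I.filter (fun x => κ x = l) with hC
  have hn := card_supp h12 h3 hne
  have hcard : I.card + S.card = (supp G).card := card_sdiff_add_card_eq_card hS
  have h1 := sum_deg_le h12 h3 hS
  have h2 : ∑ x ∈ I, (G.neighborFinset x ∩ S).card ≤ ∑ x ∈ S, G.degree x := by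
    rw [cross]
    refine sum_le_sum fun x _ => ?_
    rw [← G.card_neighborFinset_eq_degree]
    exact card_le_card inter_subset_left
  have h4 : ∀ x ∈ I, G.degree x ≤ (G.neighborFinset x ∩ S).card +
      (G.neighborFinset x ∩ C (κ x)).card := by
    intro x hx
    rw [← G.card_neighborFinset_eq_degree]
    refine le_trans (card_le_card ?_) (card_union_le _ _)
    intro z hz
    have hxz := (G.mem_neighborFinset x z).1 hz
    rw [mem_union, mem_inter, mem_inter]
    by_cases hzS : z ∈ S
    · exact Or.inl ⟨hz, hzS⟩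
    · refine Or.inr ⟨hz, mem_filter.2 ⟨mem_sdiff.2 ⟨mem_supp.2 ⟨x, hxz.symm⟩, hzS⟩, ?_⟩⟩
      exact (hκ x z hxz (mem_sdiff.1 hx).2 hzS).symm
  have h5 : 3 * I.card ≤ ∑ x ∈ I, G.degree x := by
    rw [mul_comm, ← smul_eq_mul, ← sum_const]
    refine sum_le_sum fun x hx => ?_
    obtain ⟨z, hz⟩ := mem_supp.1 (mem_sdiff.1 hx).1
    exact h3 x z hz
  have h6 : ∑ x ∈ I, (G.neighborFinset x ∩ C (κ x)).card =
      ∑ l ∈ I.image κ, ∑ x ∈ C l, (G.neighborFinset x ∩ C l).card := by
    rw [← sum_fiberwise_of_maps_to (s := I) (t := I.image κ) (g := κ)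
      (fun x hx => mem_image_of_mem _ hx)]
    refine sum_congr rfl fun l _ => sum_congr rfl fun x hx => ?_
    rw [(mem_filter.1 hx).2]
  have h7 : I.card = ∑ l ∈ I.image κ, (C l).card :=
    card_eq_sum_card_fiberwise (fun x hx => mem_image_of_mem _ hx)
  have h8 : ∑ l ∈ I.image κ, (∑ x ∈ C l, (G.neighborFinset x ∩ C l).card + 2) ≤
      ∑ l ∈ I.image κ, 2 * (C l).card := by
    refine sum_le_sum fun l hl => ?_
    obtain ⟨x, hx, rfl⟩ := mem_image.1 hl
    exact forest_sum h12 ⟨x, mem_filter.2 ⟨hx, rfl⟩⟩ ((hc _).trans hp)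
  rw [sum_add_distrib, sum_const, smul_eq_mul, ← mul_sum, ← h7, ← h6] at h8
  have h9 : I.card ≤ (I.image κ).card * p := by
    rw [h7, ← smul_eq_mul, ← sum_const]
    exact sum_le_sum fun l _ => hc l
  have h10 := (h5.trans (sum_le_sum h4))
  rw [sum_add_distrib] at h10
  set N := I.card with hN
  set s := S.card with hs
  set q := (I.image κ).card with hq
  set B := ∑ x ∈ S, G.degree x with hB
  set e := ∑ x ∈ I, (G.neighborFinset x ∩ S).card with he
  have h11 : N + 2 * q ≤ B := by omega
  rw [← hcard] at h1 hn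
  -- arithmetic
  by_contra hcon
  push Not at hcon
  have h12' : (p + 2) * N ≤ p * B := by nlinarith
  have h13 : 31 * ((p + 2) * N) ≤ p * (31 * B) := by nlinarith
  have h14 : p * (31 * B) + p * (33 * s) ≤ p * (s * (N + s)) := by
    rw [← mul_add]
    exact Nat.mul_le_mul_left _ h1
  have h15 : 31 * ((p + 2) * N) + p * (33 * s) ≤ p * (s * (N + s)) := by omega
  interval_cases p <;> nlinarith

end

end Pool.Agent.N393.AHL
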