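import Pool.Agent.N393.AHL.Moore

set_option autoImplicit false

/-!
# Tangents of `x log (x - 1)` and sums over two classes of vertices
-/

namespace Pool.Agent.N393.AHL

open Finset

theorem tang_aux {p v : ℝ} (hp : 0 < p) (hv : 2 ≤ v) (hu : 2 ≤ v * p ^ 4) :
    (p ^ 4 - 1) * (v + 1) * p ≤ 4 * (v * p ^ 4 + 1) * (p - 1) := by
  have key : 4 * (v * p ^ 4 + 1) * (p - 1) - (p ^ 4 - 1) * (v + 1) * p =
      (p - 1) * (4 * (v * p ^ 4 + 1) - (v + 1) * (p ^ 4 + p ^ 3 + p ^ 2 + p)) := by ring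
  have h0 : 0 ≤ 4 * (v * p ^ 4 + 1) * (p - 1) - (p ^ 4 - 1) * (v + 1) * p := by
    rw [key]
    rcases le_total 1 p with h | h
    · refine mul_nonneg (by linarith) ?_
      obtain ⟨h', rfl⟩ : ∃ h' : ℝ, p = 1 + h' := ⟨p - 1, by ring⟩
      have hh : 0 ≤ h' := by linarith
      obtain ⟨w, rfl⟩ : ∃ w : ℝ, v = 2 + w := ⟨v - 2, by ring⟩
      have hw : 0 ≤ w := by linarith
      ring_nf
      positivity
    · refine mul_nonneg_of_nonpos_of_nonpos (by linarith) ?_
      obtain ⟨w, rfl⟩ : ∃ w : ℝ, p = 1 / w := ⟨1 / p, by field_simp⟩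
      have hw0 : 0 < w := by
        rw [one_div, inv_pos] at hp
        exact hp
      have hw : 1 ≤ w := by
        rw [div_le_one hw0] at h
        exact h
      have hu' : 2 * w ^ 4 ≤ v := by
        have : v * (1 / w) ^ 4 = v / w ^ 4 := by
          rw [one_div, inv_pow]
          rfl
        rw [this, le_div_iff₀ (by positivity)] at hu
        exact hu
      have e : 4 * (v * (1 / w) ^ 4 + 1) - (v + 1) * ((1 / w) ^ 4 + (1 / w) ^ 3 + (1 / w) ^ 2 +
          1 / w) = (4 * w ^ 4 + 4 * v - (v + 1) * (1 + w + w ^ 2 + w ^ 3)) / w ^ 4 := by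
        field_simp
        ring
      rw [e]
      refine div_nonpos_of_nonpos_of_nonneg ?_ (by positivity)
      obtain ⟨z, rfl⟩ : ∃ z : ℝ, v = 2 * w ^ 4 + z := ⟨v - 2 * w ^ 4, by ring⟩
      have hz : 0 ≤ z := by linarith
      obtain ⟨h', rfl⟩ : ∃ h' : ℝ, w = 1 + h' := ⟨w - 1, by ring⟩
      have hh : 0 ≤ h' := by linarith
      have : 0 ≤ -(4 * (1 + h') ^ 4 + 4 * (2 * (1 + h') ^ 4 + z) -
          (2 * (1 + h') ^ 4 + z + 1) * (1 + (1 + h') + (1 + h') ^ 2 + (1 + h') ^ 3)) := by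
        ring_nf
        positivity
      linarith
  linarith

/-- `x log (x - 1)` lies above its tangents. -/
theorem tang {x t : ℝ} (hx : 3 ≤ x) (ht : 3 ≤ t) :
    t * Real.log (t - 1) + (x - t) * (Real.log (t - 1) + t / (t - 1)) ≤ x * Real.log (x - 1) := by
  have hv : 0 < t - 1 := by linarith
  have hu : 0 < x - 1 := by linarith
  set r : ℝ := (x - 1) / (t - 1) with hr
  have hr0 : 0 < r := div_pos hu hv
  have hxr : x - 1 = r * (t - 1) := by
    rw [hr]; field_simp
  have hlog : Real.log (x - 1) = Real.log r + Real.log (t - 1) := by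
    rw [hxr, Real.log_mul hr0.ne' hv.ne']
  set p : ℝ := √(√r) with hp
  have hp0 : 0 < p := Real.sqrt_pos.2 (Real.sqrt_pos.2 hr0)
  have hp4 : p ^ 4 = r := by
    have h1 : p ^ 2 = √r := Real.sq_sqrt (Real.sqrt_nonneg _)
    have h2 : (√r) ^ 2 = r := Real.sq_sqrt hr0.le
    calc p ^ 4 = (p ^ 2) ^ 2 := by ring
      _ = r := by rw [h1, h2]
  have h3 : 4 * (1 - 1 / p) ≤ Real.log r := by
    rw [← hp4, Real.log_pow]
    have := Real.one_sub_inv_le_log_of_pos hp0
    push_cast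
    rw [one_div]
    linarith
  have h4 := tang_aux (p := p) (v := t - 1) hp0 (by linarith) (by
    rw [hp4, mul_comm, ← hxr]; linarith)
  rw [hp4] at h4
  have h5 : (r - 1) * t * p ≤ 4 * x * (p - 1) := by
    have e1 : (t - 1) * r + 1 = x := by rw [mul_comm, ← hxr]; ring
    have e2 : t - 1 + 1 = t := by ring
    rw [e1, e2] at h4
    exact h4
  have h6 : (r - 1) * t ≤ x * (4 * (1 - 1 / p)) := by
    have e : x * (4 * (1 - 1 / p)) = 4 * x * (p - 1) / p := by
      field_simp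
    rw [e, le_div_iff₀ hp0]
    exact h5
  have h7 : (r - 1) * t ≤ x * Real.log r :=
    h6.trans (mul_le_mul_of_nonneg_left h3 (by linarith))
  have h8 : (x - t) * (t / (t - 1)) = (r - 1) * t := by
    have : x - t = (r - 1) * (t - 1) := by linarith
    rw [this]
    field_simp
  rw [hlog]
  linarith [h7, h8]

section
variable {V : Type} [Fintype V] [DecidableEq V] {G : SimpleGraph V} [DecidableRel G.Adj]

/-- The sum over the vertices, if the vertices which are not isolated are in `S` or in `I`. -/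
theorem two_class {S I : Finset V} (hSI : Disjoint S I)
    (h0 : ∀ x, x ∉ S → x ∉ I → G.degree x = 0) (h3 : ∀ x ∈ S ∪ I, 3 ≤ G.degree x)
    {t : ℝ} (ht : 3 ≤ t) :
    I.card * (3 * Real.log 2) + (∑ x ∈ I, (G.degree x : ℝ) - 3 * I.card) * (Real.log 2 + 3 / 2) +
      (S.card * (t * Real.log (t - 1)) +
      (∑ x ∈ S, (G.degree x : ℝ) - t * S.card) * (Real.log (t - 1) + t / (t - 1))) ≤
      ∑ x, (G.degree x : ℝ) * Real.log ((G.degree x : ℝ) - 1) := by
  classical
  have h4 : ∀ (T : Finset V) (u : ℝ), 3 ≤ u → T ⊆ S ∪ I → T.card * (u * Real.log (u - 1)) +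
      (∑ x ∈ T, (G.degree x : ℝ) - u * T.card) * (Real.log (u - 1) + u / (u - 1)) ≤
      ∑ x ∈ T, (G.degree x : ℝ) * Real.log ((G.degree x : ℝ) - 1) := by
    intro T u hu hT
    have h5 : ∑ x ∈ T, (u * Real.log (u - 1) + ((G.degree x : ℝ) - u) *
        (Real.log (u - 1) + u / (u - 1))) ≤
        ∑ x ∈ T, (G.degree x : ℝ) * Real.log ((G.degree x : ℝ) - 1) := by
      refine sum_le_sum fun x hx => tang ?_ hu
      exact_mod_cast h3 x (hT hx)
    refine le_trans (le_of_eq ?_) h5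
    rw [sum_add_distrib, sum_const, nsmul_eq_mul, ← sum_mul, sum_sub_distrib, sum_const,
      nsmul_eq_mul, mul_comm u (T.card : ℝ)]
  have h5 := h4 S t ht subset_union_left
  have h6 := h4 I 3 le_rfl subset_union_right
  have h7 : ∑ x, (G.degree x : ℝ) * Real.log ((G.degree x : ℝ) - 1) =
      ∑ x ∈ S ∪ I, (G.degree x : ℝ) * Real.log ((G.degree x : ℝ) - 1) := by
    symm
    refine sum_subset (subset_univ _) fun x _ hx => ?_
    rw [mem_union, not_or] at hx
    rw [h0 x hx.1 hx.2]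
    simp
  rw [h7, sum_union hSI]
  norm_num at h6
  linarith

/-- the sum of the degrees -/
theorem deg_class {S I : Finset V} (hSI : Disjoint S I)
    (h0 : ∀ x, x ∉ S → x ∉ I → G.degree x = 0) :
    ∑ x, (G.degree x : ℝ) = ∑ x ∈ S, (G.degree x : ℝ) + ∑ x ∈ I, (G.degree x : ℝ) := by
  classical
  rw [← sum_union hSI]
  symm
  refine sum_subset (subset_univ _) fun x _ hx => ?_
  rw [mem_union, not_or] at hx
  rw [h0 x hx.1 hx.2]
  simp

end

end Pool.Agent.N393.AHL
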