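import Pool.Agent.Y358.IN.Ind2
import Mathlib.Analysis.SpecialFunctions.Log.Basic
import Mathlib.Analysis.SpecialFunctions.Pow.Real

set_option autoImplicit false

/-!
# The Moore bound for irregular graphs of girth at least twelve

For a graph `G` of girth at least twelve in which all vertices which are not isolated have degree at
least two, and a number `y > 0` with `∑ d(x) log (d(x) - 1) ≥ log y ∑ d(x)`, the number of the
vertices which are not isolated is at least `2 (1 + y + ... + y ^ 5)` (Alon, Hoory and Linial).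
-/

namespace Pool.Agent.N393.AHL

open Finset Pool.Agent.TH676.Z Pool.Agent.Y335.FL

section
variable {V : Type} [Fintype V] [DecidableEq V] {G : SimpleGraph V} [DecidableRel G.Adj]

/-- the recursion -/
theorem b_succ (h12 : ∀ (w : V) (c : G.Walk w w), c.IsCycle → 12 ≤ c.length) {x y : V}
    (hxy : G.Adj x y) {d : ℕ} (hd : d ≤ 4) :
    ∑ w ∈ (G.neighborFinset x).erase y, (Ord.Bs G d w x).card ≤ (Ord.Bs G (d + 1) x y).card := by
  classical
  have k3 : ∀ w ∈ (G.neighborFinset x).erase y, ∀ w' ∈ (G.neighborFinset x).erase y, w ≠ w' →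
      Disjoint (Ord.Bs G d w x) (Ord.Bs G d w' x) := by
    intro w hw w' hw' hne
    rw [disjoint_left]
    intro v hv hv'
    obtain ⟨p, hp, hpl, hyp⟩ := Ord.mem_Bs.1 hv
    obtain ⟨q, hq, hql, hyq⟩ := Ord.mem_Bs.1 hv'
    have a1 : G.Adj x w := (G.mem_neighborFinset x w).1 (mem_of_mem_erase hw)
    have a2 : G.Adj x w' := (G.mem_neighborFinset x w').1 (mem_of_mem_erase hw')
    have e := Ord.uniq h12 ((SimpleGraph.Walk.cons_isPath_iff a1 p).2 ⟨hp, hyp⟩)
      ((SimpleGraph.Walk.cons_isPath_iff a2 q).2 ⟨hq, hyq⟩) (by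
      simp only [SimpleGraph.Walk.length_cons]
      omega)
    have e2 := congrArg (fun z : G.Walk x v => z.getVert 1) e
    simp only [SimpleGraph.Walk.getVert_cons_succ, SimpleGraph.Walk.getVert_zero] at e2
    exact hne e2
  rw [← card_biUnion k3]
  refine card_le_card ?_
  intro v hv
  obtain ⟨w, hw, hv⟩ := mem_biUnion.1 hv
  obtain ⟨p, hp, hpl, hyp⟩ := Ord.mem_Bs.1 hv
  have a1 : G.Adj x w := (G.mem_neighborFinset x w).1 (mem_of_mem_erase hw)
  have hwy : w ≠ y := (mem_erase.1 hw).1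
  have hq := (SimpleGraph.Walk.cons_isPath_iff a1 p).2 ⟨hp, hyp⟩
  refine Ord.mem_Bs.2 ⟨SimpleGraph.Walk.cons a1 p, hq, by
    rw [SimpleGraph.Walk.length_cons, hpl], ?_⟩
  rw [SimpleGraph.Walk.support_cons, List.mem_cons, not_or]
  refine ⟨hxy.ne.symm, fun hy => ?_⟩
  have hq2 : (SimpleGraph.Walk.cons a1 (p.takeUntil y hy)).IsPath := by
    rw [SimpleGraph.Walk.cons_isPath_iff]
    refine ⟨hp.takeUntil hy, fun h => hyp ?_⟩
    exact p.support_takeUntil_subset_support hy h
  have e := Ord.uniq h12 hq2 (Ord.edge_path hxy) (by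
    have := p.length_takeUntil_le_length hy
    simp only [SimpleGraph.Walk.length_cons, SimpleGraph.Walk.length_nil]
    omega)
  have e2 := congrArg (fun z : G.Walk x y => z.getVert 1) e
  simp only [SimpleGraph.Walk.getVert_cons_succ, SimpleGraph.Walk.getVert_zero] at e2
  exact hwy e2

theorem b_zero {x y : V} (hxy : G.Adj x y) : 1 ≤ (Ord.Bs G 0 x y).card := by
  classical
  rw [Nat.one_le_iff_ne_zero, Ne, card_eq_zero]
  intro h
  have : x ∈ Ord.Bs G 0 x y := Ord.mem_Bs.2 ⟨SimpleGraph.Walk.nil, SimpleGraph.Walk.IsPath.nil,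
    rfl, by
    simp only [SimpleGraph.Walk.support_nil, List.mem_singleton]
    exact hxy.ne.symm⟩
  rw [h] at this
  exact notMem_empty _ this

/-- the two sides of an edge -/
theorem b_sum (h12 : ∀ (w : V) (c : G.Walk w w), c.IsCycle → 12 ≤ c.length) {x y : V}
    (hxy : G.Adj x y) :
    ∑ d ∈ range 6, (Ord.Bs G d x y).card + ∑ d ∈ range 6, (Ord.Bs G d y x).card ≤
      (univ.filter (fun v => ∃ y, G.Adj v y)).card := by
  classical
  have kc : ∀ x y : V, (Ord.Ds G x y).card = ∑ d ∈ range 6, (Ord.Bs G d x y).card := by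
    intro x y
    unfold Ord.Ds
    rw [card_biUnion]
    intro d hd e he hne
    change Disjoint (Ord.Bs G d x y) (Ord.Bs G e x y)
    rw [disjoint_left]
    intro v hv hv'
    obtain ⟨p, hp, hpl, _⟩ := Ord.mem_Bs.1 hv
    obtain ⟨q, hq, hql, _⟩ := Ord.mem_Bs.1 hv'
    have h1 := mem_range.1 (mem_coe.1 hd)
    have h2 := mem_range.1 (mem_coe.1 he)
    have e := Ord.uniq h12 hp hq (by omega)
    apply hne
    rw [← hpl, ← hql, e]
  have k3 : Disjoint (Ord.Ds G x y) (Ord.Ds G y x) := by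
    rw [disjoint_left]
    intro v hv hv'
    obtain ⟨d, hd, hv⟩ := mem_biUnion.1 hv
    obtain ⟨e, he, hv'⟩ := mem_biUnion.1 hv'
    obtain ⟨p, hp, hpl, hyp⟩ := Ord.mem_Bs.1 hv
    obtain ⟨q, hq, hql, hxq⟩ := Ord.mem_Bs.1 hv'
    have h1 := mem_range.1 hd
    have h2 := mem_range.1 he
    have h4 := Ord.uniq h12 hp ((SimpleGraph.Walk.cons_isPath_iff hxy q).2 ⟨hq, hxq⟩) (by
      rw [SimpleGraph.Walk.length_cons]
      omega)
    apply hyp
    rw [h4, SimpleGraph.Walk.support_cons]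
    exact List.mem_cons_of_mem _ q.start_mem_support
  have k4 : ∀ x y : V, G.Adj x y → Ord.Ds G x y ⊆ univ.filter (fun v => ∃ y, G.Adj v y) := by
    intro x y hxy v hv
    obtain ⟨d, _, hv⟩ := mem_biUnion.1 hv
    obtain ⟨p, _, _, _⟩ := Ord.mem_Bs.1 hv
    rw [mem_filter]
    exact ⟨mem_univ _, Ord.nbr hxy p⟩
  rw [← kc, ← kc, ← card_union_of_disjoint k3]
  exact card_le_card (union_subset (k4 x y hxy) (k4 y x hxy.symm))

/-- the logarithm of a sum -/
theorem log_sum {ι : Type} (s : Finset ι) (f : ι → ℝ) (hs : s.Nonempty) (hf : ∀ i ∈ s, 0 < f i) :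
    Real.log s.card + (∑ i ∈ s, Real.log (f i)) / s.card ≤ Real.log (∑ i ∈ s, f i) := by
  have hc : (0 : ℝ) < s.card := by exact_mod_cast card_pos.2 hs
  have hS : 0 < ∑ i ∈ s, f i := sum_pos hf hs
  set m : ℝ := (∑ i ∈ s, f i) / s.card with hm
  have hm0 : 0 < m := div_pos hS hc
  have h1 : ∑ i ∈ s, Real.log (f i) ≤ ∑ i ∈ s, (f i / m - 1 + Real.log m) := by
    refine sum_le_sum fun i hi => ?_
    have h2 := Real.log_le_sub_one_of_pos (div_pos (hf i hi) hm0)
    rw [Real.log_div (hf i hi).ne' hm0.ne'] at h2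
    linarith
  rw [sum_add_distrib, sum_sub_distrib, ← sum_div, sum_const, sum_const, nsmul_eq_mul,
    nsmul_eq_mul, mul_one] at h1
  have h3 : (∑ i ∈ s, f i) / m = s.card := by
    rw [hm]
    field_simp
  rw [h3] at h1
  have h4 : (∑ i ∈ s, Real.log (f i)) / s.card ≤ Real.log m := by
    rw [div_le_iff₀ hc]
    linarith
  have h5 : Real.log m = Real.log (∑ i ∈ s, f i) - Real.log s.card := by
    rw [hm, Real.log_div hS.ne' hc.ne']
  linarith

end

end Pool.Agent.N393.AHL
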